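import Pool.Agent.L7h17.RF.Stm

/-!
# Project RF: cluster points and Arens products
-/

set_option autoImplicit false

open MeasureTheory Filter Topology
open scoped ComplexConjugate InnerProductSpace
open H434R3.Arens (Bidual ev psi hmod box ext_ev InRad)

namespace Pool.Agent.L7h17.RF

universe v

/-- weak* cluster points along an ultrafilter -/
theorem clus {E : Type v} [NormedAddCommGroup E] [NormedSpace ℂ E] (φ : ℕ → (E →L[ℂ] ℂ)) (C : ℝ)
    (hC : ∀ n, ‖φ n‖ ≤ C) (F : Ultrafilter ℕ) :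
    ∃ ψ : E →L[ℂ] ℂ, ∀ x, Tendsto (fun n => φ n x) F (𝓝 (ψ x)) := by
  have h1 : ∀ x : E, ∃ l : ℂ, Tendsto (fun n => φ n x) F (𝓝 l) := by
    intro x
    have hK : IsCompact (Metric.closedBall (0 : ℂ) (C * ‖x‖)) := isCompact_closedBall _ _
    have hm : ∀ n, φ n x ∈ Metric.closedBall (0 : ℂ) (C * ‖x‖) := by
      intro n
      rw [mem_closedBall_zero_iff]
      exact ((φ n).le_opNorm x).trans (mul_le_mul_of_nonneg_right (hC n) (norm_nonneg _))
    obtain ⟨l, -, hl⟩ := hK.ultrafilter_le_nhds (F.map fun n => φ n x)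
      (le_principal_iff.2 (show (fun n => φ n x) ⁻¹' _ ∈ F from Filter.univ_mem' hm))
    exact ⟨l, hl⟩
  choose l hl using h1
  refine ⟨LinearMap.mkContinuous
    { toFun := l
      map_add' := fun x y => tendsto_nhds_unique (hl (x + y)) (by
        have := (hl x).add (hl y)
        simpa only [map_add] using this)
      map_smul' := fun c x => tendsto_nhds_unique (hl (c • x)) (by
        have := (hl x).const_mul c
        simpa only [map_smul, smul_eq_mul, RingHom.id_apply] using this) } C ?_, hl⟩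
  intro x
  refine le_of_tendsto (hl x).norm (Filter.Eventually.of_forall fun n => ?_)
  exact ((φ n).le_opNorm x).trans (mul_le_mul_of_nonneg_right (hC n) (norm_nonneg _))

variable {A : Type v} [NonUnitalNormedRing A] [NormedSpace ℂ A] [IsScalarTower ℂ A A]
  [SMulCommClass ℂ A A]

omit [IsScalarTower ℂ A A] [SMulCommClass ℂ A A] in
/-- cluster points in the second dual -/
theorem clus2 (w : ℕ → A) (C : ℝ) (hC : ∀ n, ‖w n‖ ≤ C) (F : Ultrafilter ℕ) :
    ∃ Φ : Bidual A, ∀ h, Tendsto (fun n => h (w n)) F (𝓝 (ev Φ h)) := by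
  obtain ⟨ψ, hψ⟩ := clus (E := A →L[ℂ] ℂ) (fun n => ContinuousLinearMap.apply ℂ ℂ (w n)) C (by
    intro n
    refine (ContinuousLinearMap.opNorm_le_bound _ (norm_nonneg (w n)) fun f => ?_).trans (hC n)
    rw [ContinuousLinearMap.apply_apply, mul_comm]
    exact f.le_opNorm _) F
  exact ⟨ψ, hψ⟩

/-- a bounded sequence with `w m b w n = 0` for `m ≠ n`, which is not weakly null -/
theorem alg1 (w : ℕ → A) (C : ℝ) (hC : ∀ n, ‖w n‖ ≤ C)
    (hw : ∀ m n, m ≠ n → ∀ b, w m * b * w n = 0) (T : A →L[ℂ] ℂ) (c : ℝ) (hc : 0 < c)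
    (hT : ∀ n, c ≤ ‖T (w n)‖) : ∃ Φ : Bidual A, Φ ≠ 0 ∧ ∀ Ψ : Bidual A, Φ * Ψ * Φ = 0 := by
  obtain ⟨Φ, hΦ⟩ := clus2 w C hC (hyperfilter ℕ)
  refine ⟨Φ, ?_, ?_⟩
  · intro h0
    have h1 := hΦ T
    rw [h0] at h1
    have h2 : c ≤ ‖ev (0 : Bidual A) T‖ := ge_of_tendsto' h1.norm hT
    rw [H434R3.Arens.ev_zero, norm_zero] at h2
    linarith
  · intro Ψ
    apply ext_ev
    intro h
    have e1 : ev (Φ * Ψ * Φ) h = ev Φ (psi Ψ (psi Φ h)) := by
      rw [H434R3.Arens.mul_def, H434R3.Arens.mul_def, H434R3.Arens.box_assoc,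
        H434R3.Arens.ev_box, H434R3.Arens.psi_box]
    rw [e1, H434R3.Arens.ev_zero]
    have h2 : ∀ m, psi Ψ (psi Φ h) (w m) = 0 := by
      intro m
      rw [H434R3.Arens.psi_apply']
      have h3 : hmod (psi Φ h) (w m) = 0 := by
        ext b
        rw [H434R3.Arens.hmod_apply, H434R3.Arens.psi_apply']
        have h4 := hΦ (hmod h (w m * b))
        have h5 : Tendsto (fun n => hmod h (w m * b) (w n)) (hyperfilter ℕ : Filter ℕ)
            (𝓝 0) := by
          refine tendsto_const_nhds.congr' ?_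
          have h6 : ∀ᶠ n in (hyperfilter ℕ : Filter ℕ), n ≠ m := by
            have h7 : ({m} : Set ℕ)ᶜ ∈ (hyperfilter ℕ : Filter ℕ) :=
              (Set.finite_singleton m).compl_mem_hyperfilter
            exact h7
          filter_upwards [h6] with n hn
          rw [H434R3.Arens.hmod_apply, hw m n (Ne.symm hn) b, map_zero]
        simpa using tendsto_nhds_unique h4 h5
      rw [h3, H434R3.Arens.ev_map_zero]
    have h8 := hΦ (psi Ψ (psi Φ h))
    simp only [h2] at h8
    exact (tendsto_nhds_unique h8 tendsto_const_nhds)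

/-- elements of the second dual which vanish on `A' A` -/
theorem alg2 (Φ : Bidual A) (h : ∀ (f : A →L[ℂ] ℂ) (a : A), ev Φ (hmod f a) = 0) (Ψ : Bidual A) :
    Φ * Ψ * Φ = 0 := by
  apply ext_ev
  intro f
  rw [H434R3.Arens.mul_def, H434R3.Arens.ev_box]
  have h1 : psi Φ f = 0 := by
    ext a
    rw [H434R3.Arens.psi_apply', h]
    rfl
  rw [h1, H434R3.Arens.ev_map_zero, H434R3.Arens.ev_zero]

end Pool.Agent.L7h17.RF
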