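import Pool.Agent.L7h17.RF.Stm

/-!
# Project RF: the test operators
-/

set_option autoImplicit false
set_option linter.unusedSectionVars false

open MeasureTheory Filter Topology
open scoped ComplexConjugate InnerProductSpace

namespace Pool.Agent.L7h17.RF

open Classical in
/-- `∑_{l < m, l ∈ S} P l W l P l` -/
noncomputable def TT {K : Type} [NormedAddCommGroup K] [InnerProductSpace ℂ K]
    (P W : ℕ → Op K) (S : Set ℕ) (m : ℕ) : Op K :=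
  ∑ l ∈ (Finset.range m).filter (· ∈ S), P l * W l * P l

section

variable {K : Type} [NormedAddCommGroup K] [InnerProductSpace ℂ K] [CompleteSpace K]
  {P W : ℕ → Op K} (hsa : ∀ k, IsSelfAdjoint (P k))
  (hp : ∀ k y, 0 ≤ (⟪P k y, y⟫_ℂ).re ∧ ‖P k y‖ ^ 2 ≤ (⟪P k y, y⟫_ℂ).re)
  (hs : ∀ m y, ∑ k ∈ Finset.range m, (⟪P k y, y⟫_ℂ).re ≤ ‖y‖ ^ 2)
  (hW : ∀ k y, ‖W k y‖ = ‖y‖)

open Classical in
include hsa in
theorem TT_inner (S : Set ℕ) (m : ℕ) (x y : K) :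
    ⟪y, TT P W S m x⟫_ℂ = ∑ l ∈ (Finset.range m).filter (· ∈ S), ⟪P l y, W l (P l x)⟫_ℂ := by
  unfold TT
  rw [sum_apply, inner_sum]
  refine Finset.sum_congr rfl fun l _ => ?_
  have h1 : (P l).adjoint = P l := (hsa l)
  change ⟪y, P l (W l (P l x))⟫_ℂ = _
  rw [← ContinuousLinearMap.adjoint_inner_left, h1]

include hp hs in
theorem sq_sum (s : Finset ℕ) (m : ℕ) (hm : s ⊆ Finset.range m) (y : K) :
    ∑ l ∈ s, ‖P l y‖ ^ 2 ≤ ‖y‖ ^ 2 := by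
  calc ∑ l ∈ s, ‖P l y‖ ^ 2 ≤ ∑ l ∈ Finset.range m, ‖P l y‖ ^ 2 :=
        Finset.sum_le_sum_of_subset_of_nonneg hm fun _ _ _ => sq_nonneg _
    _ ≤ ∑ l ∈ Finset.range m, (⟪P l y, y⟫_ℂ).re := Finset.sum_le_sum fun l _ => (hp l y).2
    _ ≤ ‖y‖ ^ 2 := hs m y

include hW in
theorem cs_sum (s : Finset ℕ) (x y : K) (a b : ℝ) (ha : 0 ≤ a) (hb : 0 ≤ b)
    (hx : ∑ l ∈ s, ‖P l x‖ ^ 2 ≤ a ^ 2) (hy : ∑ l ∈ s, ‖P l y‖ ^ 2 ≤ b ^ 2) :
    ‖∑ l ∈ s, ⟪P l y, W l (P l x)⟫_ℂ‖ ≤ b * a := by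
  calc ‖∑ l ∈ s, ⟪P l y, W l (P l x)⟫_ℂ‖ ≤ ∑ l ∈ s, ‖⟪P l y, W l (P l x)⟫_ℂ‖ := norm_sum_le _ _
    _ ≤ ∑ l ∈ s, ‖P l y‖ * ‖P l x‖ := by
        refine Finset.sum_le_sum fun l _ => ?_
        have := norm_inner_le_norm (𝕜 := ℂ) (P l y) (W l (P l x))
        rwa [hW] at this
    _ ≤ b * a := by
        have h1 := Finset.sum_mul_sq_le_sq_mul_sq s (fun l => ‖P l y‖) (fun l => ‖P l x‖)
        have h2 : (∑ l ∈ s, ‖P l y‖ * ‖P l x‖) ^ 2 ≤ (b * a) ^ 2 := by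
          refine h1.trans ?_
          rw [mul_pow]
          exact mul_le_mul hy hx (Finset.sum_nonneg fun _ _ => sq_nonneg _) (sq_nonneg _)
        exact abs_le_of_sq_le_sq' h2 (mul_nonneg hb ha) |>.2

include hsa hp hs hW in
theorem TT_norm (S : Set ℕ) (m : ℕ) : ‖TT P W S m‖ ≤ 1 := by
  classical
  refine ContinuousLinearMap.opNorm_le_bound _ zero_le_one fun x => ?_
  rw [one_mul]
  have h1 : ‖⟪TT P W S m x, TT P W S m x⟫_ℂ‖ ≤ ‖TT P W S m x‖ * ‖x‖ := by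
    rw [TT_inner hsa S m x (TT P W S m x)]
    exact cs_sum hW _ _ _ _ _ (norm_nonneg _) (norm_nonneg _)
      (sq_sum hp hs _ m (Finset.filter_subset _ _) _) (sq_sum hp hs _ m (Finset.filter_subset _ _) _)
  rw [inner_self_eq_norm_sq_to_K, norm_pow] at h1
  simp only [Complex.coe_algebraMap, Complex.norm_real, norm_norm] at h1
  by_cases h0 : ‖TT P W S m x‖ = 0
  · rw [h0]; exact norm_nonneg _
  · have h2 : 0 < ‖TT P W S m x‖ := lt_of_le_of_ne (norm_nonneg _) (Ne.symm h0)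
    have h3 : ‖TT P W S m x‖ * ‖TT P W S m x‖ ≤ ‖TT P W S m x‖ * ‖x‖ := by
      rw [← sq]; exact h1
    exact le_of_mul_le_mul_left h3 h2

variable {v : ℕ → K} (hv : ∀ k, ‖v k‖ = 1) {ε : ℝ} (he : 0 ≤ ε)
  (h1 : ∀ k, 1 - ε ≤ (⟪P k (v k), v k⟫_ℂ).re)
  (h2 : ∀ k, 1 - ε ≤ (⟪P k (W k (v k)), W k (v k)⟫_ℂ).re)

include hp hs in
theorem off (k m : ℕ) (hk : k < m) (y : K) (hy : ‖y‖ = 1)
    (h1 : 1 - ε ≤ (⟪P k y, y⟫_ℂ).re) (s : Finset ℕ) (hss : s ⊆ Finset.range m) (hks : k ∉ s) :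
    ∑ l ∈ s, ‖P l y‖ ^ 2 ≤ ε := by
  have h3 := hs m y
  rw [hy, one_pow] at h3
  have h4 : ∑ l ∈ s, (⟪P l y, y⟫_ℂ).re + (⟪P k y, y⟫_ℂ).re ≤
      ∑ l ∈ Finset.range m, (⟪P l y, y⟫_ℂ).re := by
    have h6 := Finset.sum_insert (f := fun l => (⟪P l y, y⟫_ℂ).re) hks
    rw [add_comm, ← h6]
    refine Finset.sum_le_sum_of_subset_of_nonneg ?_ fun l _ _ => (hp l y).1
    intro l hl
    rcases Finset.mem_insert.1 hl with rfl | hl
    · exact Finset.mem_range.2 hk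
    · exact hss hl
  have h5 : ∑ l ∈ s, ‖P l y‖ ^ 2 ≤ ∑ l ∈ s, (⟪P l y, y⟫_ℂ).re :=
    Finset.sum_le_sum fun l _ => (hp l y).2
  linarith

include hp in
theorem near (k : ℕ) (y : K) (hy : ‖y‖ = 1) (h1 : 1 - ε ≤ (⟪P k y, y⟫_ℂ).re) :
    ‖y - P k y‖ ≤ Real.sqrt ε := by
  have h3 : ‖y - P k y‖ ^ 2 ≤ ε := by
    rw [@norm_sub_sq ℂ, hy]
    have h4 := (hp k y).2
    have h5 : RCLike.re ⟪y, P k y⟫_ℂ = (⟪P k y, y⟫_ℂ).re := by
      rw [← inner_conj_symm, RCLike.conj_re]; rfl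
    rw [h5]
    linarith
  exact Real.le_sqrt_of_sq_le h3

include hsa hp hs hW hv he h1 h2 in
theorem TT_off (S : Set ℕ) (m k : ℕ) (hk : k < m) (hkS : k ∉ S) :
    ‖⟪W k (v k), TT P W S m (v k)⟫_ℂ‖ ≤ ε := by
  classical
  rw [TT_inner hsa]
  have hks : k ∉ (Finset.range m).filter (· ∈ S) := fun h => hkS (Finset.mem_filter.1 h).2
  have hw : ‖W k (v k)‖ = 1 := by rw [hW, hv]
  have := cs_sum hW ((Finset.range m).filter (· ∈ S)) (v k) (W k (v k)) (Real.sqrt ε) (Real.sqrt ε)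
    (Real.sqrt_nonneg _) (Real.sqrt_nonneg _)
    (by rw [Real.sq_sqrt he]; exact off hp hs k m hk _ (hv k) (h1 k) _ (Finset.filter_subset _ _) hks)
    (by rw [Real.sq_sqrt he]; exact off hp hs k m hk _ hw (h2 k) _ (Finset.filter_subset _ _) hks)
  rwa [Real.mul_self_sqrt he] at this

include hsa hp hs hW hv he h1 h2 in
theorem TT_on (S : Set ℕ) (m k : ℕ) (hk : k < m) (hkS : k ∈ S) :
    ‖⟪W k (v k), TT P W S m (v k)⟫_ℂ - 1‖ ≤ 2 * Real.sqrt ε + ε := by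
  classical
  rw [TT_inner hsa]
  have hks : k ∈ (Finset.range m).filter (· ∈ S) :=
    Finset.mem_filter.2 ⟨Finset.mem_range.2 hk, hkS⟩
  have hw : ‖W k (v k)‖ = 1 := by rw [hW, hv]
  rw [← Finset.sum_erase_add _ _ hks]
  have h3 := cs_sum hW (((Finset.range m).filter (· ∈ S)).erase k) (v k) (W k (v k))
    (Real.sqrt ε) (Real.sqrt ε) (Real.sqrt_nonneg _) (Real.sqrt_nonneg _)
    (by rw [Real.sq_sqrt he]; exact off hp hs k m hk _ (hv k) (h1 k) _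
          ((Finset.erase_subset _ _).trans (Finset.filter_subset _ _)) (Finset.notMem_erase _ _))
    (by rw [Real.sq_sqrt he]; exact off hp hs k m hk _ hw (h2 k) _
          ((Finset.erase_subset _ _).trans (Finset.filter_subset _ _)) (Finset.notMem_erase _ _))
  rw [Real.mul_self_sqrt he] at h3
  have hP : ‖P k (v k)‖ ≤ 1 := by
    have h4 := (hp k (v k)).2
    have h5 : (⟪P k (v k), v k⟫_ℂ).re ≤ ‖P k (v k)‖ := by
      have := (Complex.abs_re_le_norm _).trans (norm_inner_le_norm (𝕜 := ℂ) (P k (v k)) (v k))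
      rw [hv, mul_one] at this
      exact (le_abs_self _).trans this
    nlinarith [norm_nonneg (P k (v k))]
  have h6 : ‖⟪P k (W k (v k)), W k (P k (v k))⟫_ℂ - 1‖ ≤ 2 * Real.sqrt ε := by
    have e1 : (1 : ℂ) = ⟪W k (v k), W k (v k)⟫_ℂ := by
      rw [inner_self_eq_norm_sq_to_K, hw]; simp
    have e2 : ⟪P k (W k (v k)), W k (P k (v k))⟫_ℂ - 1 =
        -⟪W k (v k) - P k (W k (v k)), W k (P k (v k))⟫_ℂ -
          ⟪W k (v k), W k (v k - P k (v k))⟫_ℂ := by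
      rw [e1, inner_sub_left, map_sub, inner_sub_right]; ring
    rw [e2]
    have n1 := near hp k _ (hv k) (h1 k)
    have n2 := near hp k _ hw (h2 k)
    have n3 : ‖⟪W k (v k) - P k (W k (v k)), W k (P k (v k))⟫_ℂ‖ ≤ Real.sqrt ε := by
      refine (norm_inner_le_norm _ _).trans ?_
      rw [hW]
      calc _ ≤ Real.sqrt ε * 1 := mul_le_mul n2 hP (norm_nonneg _) (Real.sqrt_nonneg _)
        _ = _ := mul_one _
    have n4 : ‖⟪W k (v k), W k (v k - P k (v k))⟫_ℂ‖ ≤ Real.sqrt ε := by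
      refine (norm_inner_le_norm _ _).trans ?_
      rw [hw, hW, one_mul]
      exact n1
    calc _ ≤ ‖-⟪W k (v k) - P k (W k (v k)), W k (P k (v k))⟫_ℂ‖ +
          ‖⟪W k (v k), W k (v k - P k (v k))⟫_ℂ‖ := norm_sub_le _ _
      _ ≤ 2 * Real.sqrt ε := by rw [norm_neg]; linarith
  have e3 : ∀ a b : ℂ, a + b - 1 = a + (b - 1) := fun a b => by ring
  rw [e3]
  refine (norm_add_le _ _).trans ?_
  linarith

end

end Pool.Agent.L7h17.RF
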