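import Pool.Agent.L7h17.RF.Alg
import Pool.Agent.L7h17.RF.Tst

/-!
# Project RF: assembly, nondiscrete groups
-/

set_option autoImplicit false
set_option linter.unusedSectionVars false

open MeasureTheory Filter Topology
open scoped ComplexConjugate InnerProductSpace
open Pool.Agent.W660.FL (HH U)
open H434R3.Arens (Bidual)

namespace Pool.Agent.L7h17.RF

universe v

section Bic

variable {G K : Type} [Group G] [NormedAddCommGroup K] [InnerProductSpace ℂ K] {V : G → Op K}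

theorem bic_V (s : G) : V s ∈ Bic V := fun _ hS => hS s

theorem bic_mul {T T' : Op K} (h : T ∈ Bic V) (h' : T' ∈ Bic V) : T * T' ∈ Bic V := by
  intro S hS
  rw [← mul_assoc, h S hS, mul_assoc, h' S hS, mul_assoc]

theorem bic_sum {ι : Type} (s : Finset ι) {T : ι → Op K} (h : ∀ i ∈ s, T i ∈ Bic V) :
    ∑ i ∈ s, T i ∈ Bic V := by
  intro S hS
  rw [Finset.mul_sum, Finset.sum_mul]
  exact Finset.sum_congr rfl fun i hi => h i hi S hS

theorem bic_P {h P : Op K} (hh : h ∈ Bic V) (hP : ∀ S : Op K, S * h = h * S → S * P = P * S) :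
    P ∈ Bic V := fun S hS => hP S (hh S hS)

theorem bic_TT {P W : ℕ → Op K} (hP : ∀ k, P k ∈ Bic V) (hW : ∀ k, W k ∈ Bic V) (S : Set ℕ)
    (m : ℕ) : TT P W S m ∈ Bic V := by
  classical
  exact bic_sum _ fun l _ => bic_mul (bic_mul (hP l) (hW l)) (hP l)

end Bic

section Ev

variable {G K : Type} [Group G] [NormedAddCommGroup K] [InnerProductSpace ℂ K] [CompleteSpace K]
  {V : G → Op K} {A : Type v} [NonUnitalNormedRing A] [NormedSpace ℂ A] (M : FAW V A)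
  (hV : ∀ s x, ‖V s x‖ = ‖x‖)

include M hV in
theorem fn_le (a : A) (s : G) : ‖M.fn a s‖ ≤ ‖a‖ := by
  refine le_of_forall_pos_le_add fun ε hε => ?_
  obtain ⟨ξ, η, h1, h2, h3, h4⟩ := M.rep a ε hε
  rw [h4 s]
  refine le_trans ?_ h3
  have hm : Summable (fun i => ‖η i‖ * ‖ξ i‖) := by
    refine Summable.of_nonneg_of_le (fun i => mul_nonneg (norm_nonneg _) (norm_nonneg _))
      (fun i => ?_) ((h2.add h1).mul_left (1 / 2))
    nlinarith [sq_nonneg (‖η i‖ - ‖ξ i‖)]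
  have h5 : ∀ i, ‖⟪η i, V s (ξ i)⟫_ℂ‖ ≤ ‖η i‖ * ‖ξ i‖ := fun i => by
    have := norm_inner_le_norm (𝕜 := ℂ) (η i) (V s (ξ i))
    rwa [hV] at this
  have h6 : Summable fun i => ⟪η i, V s (ξ i)⟫_ℂ :=
    Summable.of_norm (Summable.of_nonneg_of_le (fun i => norm_nonneg _) h5 hm)
  refine le_of_tendsto h6.hasSum.tendsto_sum_nat.norm (Filter.Eventually.of_forall fun n => ?_)
  calc ‖∑ i ∈ Finset.range n, ⟪η i, V s (ξ i)⟫_ℂ‖ ≤ ∑ i ∈ Finset.range n, ‖ξ i‖ * ‖η i‖ := by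
        refine (norm_sum_le _ _).trans (Finset.sum_le_sum fun i _ => ?_)
        rw [mul_comm]; exact h5 i
    _ ≤ Real.sqrt (∑ i ∈ Finset.range n, ‖ξ i‖ ^ 2) * Real.sqrt (∑ i ∈ Finset.range n, ‖η i‖ ^ 2) :=
        Real.sum_mul_le_sqrt_mul_sqrt _ _ _
    _ ≤ Real.sqrt (∑' i, ‖ξ i‖ ^ 2) * Real.sqrt (∑' i, ‖η i‖ ^ 2) := by
        gcongr
        · exact h1.sum_le_tsum _ fun _ _ => sq_nonneg _
        · exact h2.sum_le_tsum _ fun _ _ => sq_nonneg _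

/-- evaluation at `s` -/
noncomputable def EV (s : G) : A →L[ℂ] ℂ :=
  LinearMap.mkContinuous
    { toFun := fun a => M.fn a s
      map_add' := fun a b => M.add a b s
      map_smul' := fun c a => by simp [M.smul] } 1 (fun a => by rw [one_mul]; exact fn_le M hV a s)

theorem EV_apply (s : G) (a : A) : EV M hV s a = M.fn a s := rfl

end Ev

section Non

variable (G : Type) [Group G] [TopologicalSpace G] [IsTopologicalGroup G] [T2Space G]
  [LocallyCompactSpace G] [MeasurableSpace G] [BorelSpace G]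
  (μ : Measure G) [μ.IsHaarMeasure] [μ.Regular]

/-- the functional of the test operators -/
theorem functional (hREG : S_REG G μ) (hFUN : S_FUN.{v}) {A : Type v} [NonUnitalNormedRing A]
    [NormedSpace ℂ A] (M : FAW (lam G μ) A) {P : ℕ → Op (HH μ)} {x : ℕ → G} {v : ℕ → HH μ}
    (hPb : ∀ k, P k ∈ Bic (lam G μ)) (hsa : ∀ k, IsSelfAdjoint (P k))
    (hp : ∀ k y, 0 ≤ (⟪P k y, y⟫_ℂ).re ∧ ‖P k y‖ ^ 2 ≤ (⟪P k y, y⟫_ℂ).re)
    (hs : ∀ m y, ∑ k ∈ Finset.range m, (⟪P k y, y⟫_ℂ).re ≤ ‖y‖ ^ 2)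
    (hv : ∀ k, ‖v k‖ = 1)
    (h1 : ∀ k, 1 - 1 / 100 ≤ (⟪P k (v k), v k⟫_ℂ).re)
    (h2 : ∀ k, 1 - 1 / 100 ≤ (⟪P k (lam G μ (x k) (v k)), lam G μ (x k) (v k)⟫_ℂ).re)
    (S : Set ℕ) : ∃ τ : A →L[ℂ] ℂ,
      (∀ k ∈ S, ‖τ (M.co (v k) (lam G μ (x k) (v k))) - 1‖ ≤ 1 / 4) ∧
      ∀ k, k ∉ S → ‖τ (M.co (v k) (lam G μ (x k) (v k)))‖ ≤ 1 / 4 := by
  have hW : ∀ k y, ‖lam G μ (x k) y‖ = ‖y‖ := fun k y => hREG.2.1 _ _
  have hsq : Real.sqrt (1 / 100) = 1 / 10 := by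
    rw [show (1 / 100 : ℝ) = (1 / 10) ^ 2 by norm_num, Real.sqrt_sq (by norm_num)]
  have hτ : ∀ m, ∃ τ : A →L[ℂ] ℂ, ‖τ‖ ≤ ‖TT P (fun k => lam G μ (x k)) S m‖ ∧
      ∀ ξ η, τ (M.co ξ η) = ⟪η, TT P (fun k => lam G μ (x k)) S m ξ⟫_ℂ := fun m =>
    hFUN G (HH μ) (lam G μ) hREG.1 A M _ (bic_TT hPb (fun k => bic_V _) S m)
  choose τ hτ1 hτ2 using hτ
  obtain ⟨ψ, hψ⟩ := clus τ 1 (fun m => (hτ1 m).trans (TT_norm hsa hp hs hW S m)) (hyperfilter ℕ)
  have hev : ∀ k : ℕ, ∀ᶠ m in (hyperfilter ℕ : Filter ℕ), k < m := fun k =>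
    (Nat.hyperfilter_le_atTop) (eventually_gt_atTop k)
  refine ⟨ψ, fun k hk => ?_, fun k hk => ?_⟩
  · have h3 := ((hψ (M.co (v k) (lam G μ (x k) (v k)))).sub_const 1).norm
    refine le_of_tendsto h3 ?_
    filter_upwards [hev k] with m hm
    rw [hτ2]
    refine (TT_on hsa hp hs hW hv (by norm_num) h1 h2 S m k hm hk).trans ?_
    rw [hsq]; norm_num
  · have h3 := (hψ (M.co (v k) (lam G μ (x k) (v k)))).norm
    refine le_of_tendsto h3 ?_
    filter_upwards [hev k] with m hm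
    rw [hτ2]
    refine (TT_off hsa hp hs hW hv (by norm_num) h1 h2 S m k hm hk).trans ?_
    norm_num

/-- nondiscrete groups -/
theorem non (hREG : S_REG G μ) (hFUN : S_FUN.{v}) (hBLK : S_BLK) (hNH : S_NH G μ)
    (hd : ¬ DiscreteTopology G) {A : Type v} [NonUnitalNormedRing A]
    [NormedSpace ℂ A] [IsScalarTower ℂ A A] [SMulCommClass ℂ A A] (M : FAW (lam G μ) A) :
    ∃ Φ : Bidual A, Φ ≠ 0 ∧ ∀ Ψ : Bidual A, Φ * Ψ * Φ = 0 := by
  obtain ⟨h, v, x, hb, hsa, hpos, hv, hk1, hk2, ht1, ht2, hdis⟩ := hNH hd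
  have hw : ∀ n, ‖lam G μ (x n) (v n)‖ = 1 := fun n => by rw [hREG.2.1, hv]
  obtain ⟨n, P, hn, hPc, hPs, hPp, hPsum, hP1, hP2⟩ := hBLK (HH μ) h hsa hpos v
    (fun n => lam G μ (x n) (v n)) hv hw hk1 hk2 ht1 ht2 (1 / 100) (by norm_num)
  obtain ⟨τ, hτ, -⟩ := functional G μ hREG hFUN M (P := P) (x := fun k => x (n k))
    (v := fun k => v (n k)) (fun k => bic_P hb (hPc k)) hPs hPp hPsum (fun k => hv _) hP1 hP2
    Set.univ
  refine alg1 (fun k => M.co (v (n k)) (lam G μ (x (n k)) (v (n k)))) 1 ?_ ?_ τ (1 / 2)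
    (by norm_num) ?_
  · intro k
    refine (M.norm_co _ _).trans ?_
    rw [hv, hw, mul_one]
  · intro k l hkl b
    refine M.inj _ _ fun s => ?_
    have h0 : M.fn (0 : A) s = 0 := by
      have := M.smul 0 0 s
      rwa [zero_smul, zero_mul] at this
    rw [M.mul, M.mul, M.fn_co, M.fn_co, h0]
    rcases hdis (n k) (n l) (fun e => hkl (hn.injective e)) s with e | e
    · rw [e]; ring
    · rw [e]; ring
  · intro k
    have h3 := hτ k (Set.mem_univ _)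
    have h4 : (1 : ℝ) ≤ ‖τ (M.co (v (n k)) (lam G μ (x (n k)) (v (n k))))‖ +
        ‖τ (M.co (v (n k)) (lam G μ (x (n k)) (v (n k)))) - 1‖ := by
      have := norm_sub_le (τ (M.co (v (n k)) (lam G μ (x (n k)) (v (n k)))))
        (τ (M.co (v (n k)) (lam G μ (x (n k)) (v (n k)))) - 1)
      rwa [sub_sub_cancel, norm_one] at this
    linarith

end Non

end Pool.Agent.L7h17.RF
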