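import Pool.Agent.L7h17.RF.Asm

/-!
# Project RF: assembly, discrete groups
-/

set_option autoImplicit false
set_option linter.unusedSectionVars false

open MeasureTheory Filter Topology
open scoped ComplexConjugate InnerProductSpace
open Pool.Agent.W660.FL (HH U)
open H434R3.Arens (Bidual ev hmod)

namespace Pool.Agent.L7h17.RF

universe v

/-- diagonal subsequences -/
theorem diag {X : Type} (u : ℕ → X → ℂ) (hb : ∀ n s, ‖u n s‖ ≤ 1)
    (hf : ∀ n, {s : X | u n s ≠ 0}.Finite) :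
    ∃ φ : ℕ → ℕ, StrictMono φ ∧ ∀ s, ∃ l, Tendsto (fun k => u (φ k) s) atTop (𝓝 l) := by
  set D : Set X := ⋃ n, {s : X | u n s ≠ 0} with hD
  have hDc : D.Countable := Set.countable_iUnion fun n => (hf n).countable
  have : Countable D := hDc.to_subtype
  have hK : IsCompact (Set.pi Set.univ fun _ : D => Metric.closedBall (0 : ℂ) 1) :=
    isCompact_univ_pi fun _ => isCompact_closedBall _ _
  obtain ⟨a, -, φ, hφ, ht⟩ := hK.tendsto_subseq (x := fun n (s : D) => u n s) (by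
    intro n s _
    rw [mem_closedBall_zero_iff]
    exact hb n s)
  refine ⟨φ, hφ, fun s => ?_⟩
  by_cases hs : s ∈ D
  · exact ⟨a ⟨s, hs⟩, (tendsto_pi_nhds.1 ht) ⟨s, hs⟩⟩
  · refine ⟨0, tendsto_const_nhds.congr fun k => ?_⟩
    by_contra h
    exact hs (Set.mem_iUnion.2 ⟨φ k, Ne.symm h⟩)

section Co

variable {G K : Type} [Group G] [NormedAddCommGroup K] [InnerProductSpace ℂ K] [CompleteSpace K]
  {V : G → Op K} {A : Type v} [NonUnitalNormedRing A] [NormedSpace ℂ A] (M : FAW V A)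

theorem fn_zero (s : G) : M.fn (0 : A) s = 0 := by
  have := M.smul 0 0 s
  rwa [zero_smul, zero_mul] at this

theorem fn_neg (a : A) (s : G) : M.fn (-a) s = -M.fn a s := by
  have := M.smul (-1) a s
  rwa [neg_one_smul, neg_one_mul] at this

theorem fn_sub (a b : A) (s : G) : M.fn (a - b) s = M.fn a s - M.fn b s := by
  rw [sub_eq_add_neg, M.add, fn_neg, sub_eq_add_neg]

theorem fn_sum {ι : Type} (t : Finset ι) (a : ι → A) (s : G) :
    M.fn (∑ i ∈ t, a i) s = ∑ i ∈ t, M.fn (a i) s := by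
  classical
  induction t using Finset.induction_on with
  | empty => simp [fn_zero]
  | insert i t hi ih => rw [Finset.sum_insert hi, Finset.sum_insert hi, M.add, ih]

theorem co_sub (ξ ξ' η η' : K) :
    M.co ξ η - M.co ξ' η' = M.co (ξ - ξ') η + M.co ξ' (η - η') := by
  refine M.inj _ _ fun s => ?_
  rw [fn_sub, M.add, M.fn_co, M.fn_co, M.fn_co, M.fn_co, map_sub, inner_sub_right,
    inner_sub_left]
  ring

end Co

variable (G : Type) [Group G] [TopologicalSpace G] [IsTopologicalGroup G] [T2Space G]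
  [LocallyCompactSpace G] [MeasurableSpace G] [BorelSpace G]
  (μ : Measure G) [μ.IsHaarMeasure] [μ.Regular]

/-- an element of the second dual which vanishes on the evaluations vanishes on `A' A` -/
theorem kill (hREG : S_REG G μ) (hDFS : S_DFS G μ) (hd : DiscreteTopology G)
    {A : Type v} [NonUnitalNormedRing A]
    [NormedSpace ℂ A] [IsScalarTower ℂ A A] [SMulCommClass ℂ A A] (M : FAW (lam G μ) A)
    (Φ : Bidual A) (hΦ : ∀ s, ev Φ (EV M (fun s x => hREG.2.1 s x) s) = 0)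
    (f : A →L[ℂ] ℂ) (a : A) : ev Φ (hmod f a) = 0 := by
  classical
  obtain ⟨hD1, hD2, hD3⟩ := hDFS hd
  choose ξ0 η0 hd1 hd2 using hD3
  -- finitely supported functions
  have hfin : ∀ b : A, {s : G | M.fn b s ≠ 0}.Finite → ev Φ (hmod f b) = 0 := by
    intro b hb
    have h1 : hmod f b = ∑ s ∈ hb.toFinset,
        (M.fn b s * f (M.co (ξ0 s) (η0 s))) • EV M (fun s x => hREG.2.1 s x) s := by
      ext c
      rw [H434R3.Arens.hmod_apply, sum_apply]
      have h2 : b * c = ∑ s ∈ hb.toFinset, (M.fn b s * M.fn c s) • M.co (ξ0 s) (η0 s) := by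
        refine M.inj _ _ fun t => ?_
        rw [M.mul, fn_sum]
        simp only [M.smul, M.fn_co]
        by_cases ht : M.fn b t = 0
        · rw [ht, zero_mul]
          symm
          refine Finset.sum_eq_zero fun s hs => ?_
          have hst : t ≠ s := by
            rintro rfl
            exact (hb.mem_toFinset.1 hs) ht
          rw [hd2 s t hst, mul_zero]
        · rw [Finset.sum_eq_single t]
          · rw [hd1, mul_one]
          · intro s _ hs
            rw [hd2 s t (Ne.symm hs), mul_zero]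
          · intro h
            exact absurd (hb.mem_toFinset.2 ht) h
      rw [h2, map_sum]
      refine Finset.sum_congr rfl fun s _ => ?_
      rw [map_smul, smul_apply, EV_apply, smul_eq_mul, smul_eq_mul]
      ring
    have h3 : ∀ t : Finset G, ev Φ (∑ s ∈ t,
        (M.fn b s * f (M.co (ξ0 s) (η0 s))) • EV M (fun s x => hREG.2.1 s x) s) = 0 := by
      intro t
      induction t using Finset.induction_on with
      | empty => rw [Finset.sum_empty, H434R3.Arens.ev_map_zero]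
      | insert i t hi ih =>
        rw [Finset.sum_insert hi, H434R3.Arens.ev_map_add, ih, H434R3.Arens.ev_map_smul, hΦ,
          mul_zero, add_zero]
    rw [h1, h3]
  -- approximation
  have happ : ∀ ε > 0, ∃ b : A, {s : G | M.fn b s ≠ 0}.Finite ∧ ‖a - b‖ ≤ ε := by
    intro ε hε
    obtain ⟨m, ξ, η, h1⟩ := M.dens a (ε / 2) (by positivity)
    have h2 : ∀ i, ∃ b : A, {s : G | M.fn b s ≠ 0}.Finite ∧
        ‖M.co (ξ i) (η i) - b‖ ≤ ε / (2 * (m + 1)) := by
      intro i
      set δ : ℝ := min 1 (ε / (2 * (m + 1)) / (‖ξ i‖ + ‖η i‖ + 1)) with hδ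
      have hpos : 0 < ‖ξ i‖ + ‖η i‖ + 1 := by positivity
      have hδ0 : 0 < δ := lt_min one_pos (by positivity)
      obtain ⟨ξ', hξ', hξf⟩ := hD1 (ξ i) δ hδ0
      obtain ⟨η', hη', hηf⟩ := hD1 (η i) δ hδ0
      refine ⟨M.co ξ' η', ?_, ?_⟩
      · have := hD2 ξ' η' hξf hηf
        refine this.subset fun s hs => ?_
        simpa [M.fn_co] using hs
      · rw [co_sub]
        have h3 : ‖ξ'‖ ≤ ‖ξ i‖ + 1 := by
          have := norm_le_norm_add_norm_sub (ξ i) ξ'
          have h4 : δ ≤ 1 := min_le_left _ _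
          linarith [norm_sub_rev (ξ i) ξ', norm_le_norm_add_norm_sub' ξ' (ξ i)]
        calc ‖M.co (ξ i - ξ') (η i) + M.co ξ' (η i - η')‖
            ≤ ‖M.co (ξ i - ξ') (η i)‖ + ‖M.co ξ' (η i - η')‖ := norm_add_le _ _
          _ ≤ ‖ξ i - ξ'‖ * ‖η i‖ + ‖ξ'‖ * ‖η i - η'‖ := add_le_add (M.norm_co _ _) (M.norm_co _ _)
          _ ≤ δ * ‖η i‖ + (‖ξ i‖ + 1) * δ := by
              gcongr
          _ = δ * (‖ξ i‖ + ‖η i‖ + 1) := by ring
          _ ≤ (ε / (2 * (m + 1)) / (‖ξ i‖ + ‖η i‖ + 1)) * (‖ξ i‖ + ‖η i‖ + 1) := by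
              gcongr
              exact min_le_right _ _
          _ = ε / (2 * (m + 1)) := by field_simp
    choose b hb1 hb2 using h2
    refine ⟨∑ i ∈ Finset.range m, b i, ?_, ?_⟩
    · refine ((Finset.range m).finite_toSet.biUnion fun i _ => hb1 i).subset fun s hs => ?_
      by_contra hcon
      apply hs
      rw [fn_sum]
      refine Finset.sum_eq_zero fun i hi => ?_
      by_contra hne
      exact hcon (Set.mem_biUnion (Finset.mem_coe.2 hi) hne)
    · have h4 : a - ∑ i ∈ Finset.range m, b i =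
          (a - ∑ i ∈ Finset.range m, M.co (ξ i) (η i)) +
            ∑ i ∈ Finset.range m, (M.co (ξ i) (η i) - b i) := by
        rw [Finset.sum_sub_distrib]; abel
      rw [h4]
      refine (norm_add_le _ _).trans ?_
      have h5 : ‖∑ i ∈ Finset.range m, (M.co (ξ i) (η i) - b i)‖ ≤ m * (ε / (2 * (m + 1))) := by
        refine (norm_sum_le _ _).trans ?_
        refine (Finset.sum_le_sum fun i _ => hb2 i).trans ?_
        rw [Finset.sum_const, Finset.card_range, nsmul_eq_mul]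
      have h6 : (m : ℝ) * (ε / (2 * (m + 1))) ≤ ε / 2 := by
        rw [mul_div_assoc', div_le_div_iff₀ (by positivity) (by norm_num)]
        nlinarith
      linarith
  have h7 : ∀ ε > 0, ‖ev Φ (hmod f a)‖ ≤ ε := by
    intro ε hε
    have hpos : 0 < H434R3.Arens.bnorm Φ * ‖f‖ + 1 := by
      have := mul_nonneg (H434R3.Arens.bnorm_nonneg Φ) (norm_nonneg f)
      linarith
    obtain ⟨b, hb1, hb2⟩ := happ (ε / (H434R3.Arens.bnorm Φ * ‖f‖ + 1)) (by positivity)
    have h8 : hmod f a = hmod f (a - b) + hmod f b := by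
      ext c
      rw [add_apply, H434R3.Arens.hmod_apply, H434R3.Arens.hmod_apply, H434R3.Arens.hmod_apply,
        ← map_add, ← add_mul, sub_add_cancel]
    rw [h8, H434R3.Arens.ev_map_add, hfin b hb1, add_zero]
    calc ‖ev Φ (hmod f (a - b))‖ ≤ H434R3.Arens.bnorm Φ * ‖hmod f (a - b)‖ :=
          H434R3.Arens.ev_le _ _
      _ ≤ H434R3.Arens.bnorm Φ * (‖f‖ * ‖a - b‖) :=
          mul_le_mul_of_nonneg_left (H434R3.Arens.hmod_norm _ _) (H434R3.Arens.bnorm_nonneg Φ)
      _ = (H434R3.Arens.bnorm Φ * ‖f‖) * ‖a - b‖ := by ring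
      _ ≤ (H434R3.Arens.bnorm Φ * ‖f‖ + 1) * (ε / (H434R3.Arens.bnorm Φ * ‖f‖ + 1)) := by
          refine mul_le_mul (by linarith) hb2 (norm_nonneg _) hpos.le
      _ = ε := by field_simp
  have h9 : ‖ev Φ (hmod f a)‖ ≤ 0 := le_of_forall_pos_le_add fun ε hε => by
    rw [zero_add]; exact h7 ε hε
  exact norm_le_zero_iff.1 h9

/-- discrete groups -/
theorem dis (hREG : S_REG G μ) (hFUN : S_FUN.{v}) (hBLK : S_BLK) (hDH : S_DH G μ)
    (hDFS : S_DFS G μ) (hd : DiscreteTopology G) (hi : Infinite G) {A : Type v}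
    [NonUnitalNormedRing A]
    [NormedSpace ℂ A] [IsScalarTower ℂ A A] [SMulCommClass ℂ A A] (M : FAW (lam G μ) A) :
    ∃ Φ : Bidual A, Φ ≠ 0 ∧ ∀ Ψ : Bidual A, Φ * Ψ * Φ = 0 := by
  obtain ⟨h, v, hb, hsa, hpos, hv, hk, ht, hfs⟩ := hDH hd hi
  obtain ⟨φ, hφ, hlim⟩ := diag (fun n s => ⟪v n, lam G μ s (v n)⟫_ℂ) (fun n s => by
    refine (norm_inner_le_norm _ _).trans ?_
    rw [hREG.2.1, hv, mul_one]) hfs
  have h1 : ∀ y, lam G μ 1 y = y := fun y => by
    rw [hREG.1.one]; rfl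
  obtain ⟨n, P, hn, hPc, hPs, hPp, hPsum, hP1, hP2⟩ := hBLK (HH μ) h hsa hpos (fun k => v (φ k))
    (fun k => lam G μ 1 (v (φ k))) (fun k => hv _) (fun k => by rw [h1, hv])
    (fun k y hy => by rw [hk y hy, inner_zero_right])
    (fun k y hy => by rw [hk y hy, inner_zero_right]) (ht.comp hφ.tendsto_atTop)
    (by simp only [h1]; exact ht.comp hφ.tendsto_atTop) (1 / 100) (by norm_num)
  obtain ⟨τ, hτ1, hτ2⟩ := functional G μ hREG hFUN M (P := P) (x := fun _ => 1)
    (v := fun k => v (φ (n k))) (fun k => bic_P hb (hPc k)) hPs hPp hPsum (fun k => hv _) hP1 hP2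
    {k | Even k}
  simp only [h1] at hτ1 hτ2
  set u : ℕ → A := fun k => M.co (v (φ (n k))) (v (φ (n k))) with hu
  have hub : ∀ k, ‖u k‖ ≤ 1 := fun k => by
    refine (M.norm_co _ _).trans ?_
    rw [hv, mul_one]
  obtain ⟨Φ₁, hΦ₁⟩ := clus2 (fun j => u (2 * j)) 1 (fun j => hub _) (hyperfilter ℕ)
  obtain ⟨Φ₂, hΦ₂⟩ := clus2 (fun j => u (2 * j + 1)) 1 (fun j => hub _) (hyperfilter ℕ)
  refine ⟨Φ₁ - Φ₂, ?_, ?_⟩
  · intro h0
    have e1 : ev (Φ₁ - Φ₂) τ = 0 := by rw [h0, H434R3.Arens.ev_zero]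
    rw [H434R3.Arens.ev_sub] at e1
    have e2 : ‖ev Φ₁ τ - 1‖ ≤ 1 / 4 := by
      refine le_of_tendsto ((hΦ₁ τ).sub_const 1).norm (Filter.Eventually.of_forall fun j => ?_)
      exact hτ1 (2 * j) (even_two_mul j)
    have e3 : ‖ev Φ₂ τ‖ ≤ 1 / 4 := by
      refine le_of_tendsto (hΦ₂ τ).norm (Filter.Eventually.of_forall fun j => ?_)
      exact hτ2 (2 * j + 1) (by simp)
    have e4 : ev Φ₁ τ = ev Φ₂ τ := sub_eq_zero.1 e1
    have e5 : (1 : ℝ) ≤ ‖ev Φ₁ τ‖ + ‖ev Φ₁ τ - 1‖ := by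
      have := norm_sub_le (ev Φ₁ τ) (ev Φ₁ τ - 1)
      rwa [sub_sub_cancel, norm_one] at this
    rw [e4] at e5 e2
    linarith
  · refine alg2 _ (kill G μ hREG hDFS hd M _ fun s => ?_)
    rw [H434R3.Arens.ev_sub]
    obtain ⟨l, hl⟩ := hlim s
    have e1 : Tendsto (fun k => EV M (fun s x => hREG.2.1 s x) s (u k)) atTop (𝓝 l) := by
      simp only [EV_apply, hu, M.fn_co]
      exact hl.comp hn.tendsto_atTop
    have e2 : Tendsto (fun j : ℕ => 2 * j) (hyperfilter ℕ : Filter ℕ) atTop :=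
      (Filter.tendsto_atTop_mono (fun j => by simp only [id]; omega) tendsto_id).mono_left Nat.hyperfilter_le_atTop
    have e3 : Tendsto (fun j : ℕ => 2 * j + 1) (hyperfilter ℕ : Filter ℕ) atTop :=
      (Filter.tendsto_atTop_mono (fun j => by simp only [id]; omega) tendsto_id).mono_left Nat.hyperfilter_le_atTop
    rw [tendsto_nhds_unique (hΦ₁ _) (e1.comp e2), tendsto_nhds_unique (hΦ₂ _) (e1.comp e3), sub_self]

end Pool.Agent.L7h17.RF
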