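import Pool.Agent.L7h17.RF.Stm
import Pool.Agent.W660.FG.R_UB

/-!
# Project RF: the regular representation
-/

set_option autoImplicit false

open MeasureTheory Filter Topology
open scoped ComplexConjugate InnerProductSpace
open Pool.Agent.W660.FL (HH U)
open Pool.Agent.W660.FG (r_UB)

namespace Pool.Agent.L7h17.RF

variable (G : Type) [Group G] [TopologicalSpace G] [IsTopologicalGroup G] [T2Space G]
  [LocallyCompactSpace G] [MeasurableSpace G] [BorelSpace G]
  (μ : Measure G) [μ.IsHaarMeasure] [μ.Regular]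

theorem lam_apply (s : G) (ξ : HH μ) : lam G μ s ξ = U μ s⁻¹ ξ := rfl

theorem s_REG : S_REG G μ := by
  obtain ⟨h1, h2, h3, h4⟩ := r_UB G μ
  refine ⟨⟨?_, ?_, ?_⟩, ?_, ?_⟩
  · ext1 ξ
    rw [lam_apply, inv_one, h2]
    rfl
  · intro s t
    ext1 ξ
    change lam G μ (s * t) ξ = lam G μ s (lam G μ t ξ)
    rw [lam_apply, lam_apply, lam_apply, mul_inv_rev, h1]
  · intro s ξ η
    rw [lam_apply, lam_apply, inv_inv, ← inner_conj_symm, h4, inv_inv, inner_conj_symm]
  · intro s ξ
    exact (U μ s⁻¹).norm_map ξ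
  · intro ξ
    exact (h3 ξ).comp continuous_inv

end Pool.Agent.L7h17.RF
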