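import Pool.Agent.L7h17.RF.Main
import Pool.Agent.L7h97.RF.Blk
import Pool.Agent.L7h97.RF.Bic
import Pool.Agent.L7h97.RF.Fun
import Pool.Agent.L7h22.RF.Lam
import Pool.Agent.L7h22.RF.Vec
import Pool.Agent.L7h73.RF.Dh

/-!
# Project RF: the theorem
-/

set_option autoImplicit false

open MeasureTheory Filter Topology
open scoped ComplexConjugate InnerProductSpace
open H434R3.Arens (Bidual InRad)

namespace Pool.Agent.L7h17.RF

universe v

theorem final (G : Type) [Group G] [TopologicalSpace G] [IsTopologicalGroup G] [T2Space G]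
    [LocallyCompactSpace G] [MeasurableSpace G] [BorelSpace G]
    (μ : Measure G) [μ.IsHaarMeasure] [μ.Regular] [Infinite G] (A : Type v) [NonUnitalNormedRing A]
    [NormedSpace ℂ A] [IsScalarTower ℂ A A] [SMulCommClass ℂ A A] (M : FAW (lam G μ) A) :
    ∃ Φ : Bidual A, Φ ≠ 0 ∧ InRad Φ ∧ ∀ Ψ : Bidual A, Φ * Ψ * Φ = 0 := by
  obtain ⟨Φ, h1, h2⟩ := main G μ (Pool.Agent.L7h97.RF.s_FUN Pool.Agent.L7h97.RF.s_BIC)
    Pool.Agent.L7h97.RF.s_BLK (Pool.Agent.L7h22.RF.s_LAM G μ) (Pool.Agent.L7h22.RF.s_VEC G μ)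
    (Pool.Agent.L7h73.RF.s_DH G μ) (Pool.Agent.L7h73.RF.s_DFS G μ) A M
  exact ⟨Φ, h1, H434R3.Arens.inRad_of_nil Φ h2, h2⟩

end Pool.Agent.L7h17.RF
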