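import Pool.Agent.L7h17.RF.Asm
import Pool.Agent.L7h17.RF.Dis

/-!
# Project RF: the Fourier algebra, in the words of the problem
-/

set_option autoImplicit false
set_option linter.unusedSectionVars false

open MeasureTheory Filter Topology
open scoped ComplexConjugate InnerProductSpace
open H434R3.Arens (Bidual)

namespace Pool.Agent.L7h17.RF

noncomputable section

universe v

section Def

variable {G : Type} [Group G] [MeasurableSpace G]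

/-- the coefficient `⟨λ(s) ξ, η⟩ = ∫ ξ(s⁻¹ y) * conj (η y) dy` of the left regular representation
`(λ(s) ξ)(y) = ξ(s⁻¹ y)` of `G` on `L²(G, μ)` -/
def coeff (μ : Measure G) (ξ η : G → ℂ) (s : G) : ℂ := ∫ y, ξ (s⁻¹ * y) * conj (η y) ∂μ

/-- `u = ⟨λ(·) ξ, η⟩` with `ξ, η ∈ L²(G, μ)` and `‖ξ‖₂ * ‖η‖₂ = r` -/
def IsRep (μ : Measure G) (u : G → ℂ) (r : ℝ) : Prop :=
  ∃ ξ η : G → ℂ, MemLp ξ 2 μ ∧ MemLp η 2 μ ∧ (∀ s, u s = coeff μ ξ η s) ∧
    r = (eLpNorm ξ 2 μ).toReal * (eLpNorm η 2 μ).toReal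

/-- The normed algebra `A` is the Fourier algebra `A(G)`: `fn` identifies `A` with the space of all
functions `⟨λ(·) ξ, η⟩`, `ξ, η ∈ L²(G, μ)`, with the pointwise operations, and the norm of `A` is
`‖u‖ = inf ‖ξ‖₂ ‖η‖₂` over all such representations of `u`. -/
structure FourierAlg (μ : Measure G) (A : Type v) [NonUnitalNormedRing A] [NormedSpace ℂ A] where
  fn : A → G → ℂ
  fn_inj : Function.Injective fn
  fn_add : ∀ a b, fn (a + b) = fn a + fn b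
  fn_smul : ∀ (c : ℂ) a, fn (c • a) = c • fn a
  fn_mul : ∀ a b, fn (a * b) = fn a * fn b
  fn_range : ∀ u : G → ℂ, u ∈ Set.range fn ↔ ∃ r, IsRep μ u r
  norm_eq : ∀ a, ‖a‖ = sInf {r | IsRep μ (fn a) r}

end Def

section Conv

variable (G : Type) [Group G] [TopologicalSpace G] [IsTopologicalGroup G] [T2Space G]
  [LocallyCompactSpace G] [MeasurableSpace G] [BorelSpace G]
  (μ : Measure G) [μ.IsHaarMeasure] [μ.Regular]

variable {G}

theorem coeff_eq (ξ η : Pool.Agent.W660.FL.HH μ) (s : G) :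
    ⟪η, lam G μ s ξ⟫_ℂ = coeff μ (ξ : G → ℂ) (η : G → ℂ) s := by
  have h1 : ⟪η, lam G μ s ξ⟫_ℂ = Pool.Agent.W660.FL.mc μ ξ η s⁻¹ := rfl
  rw [h1]
  unfold Pool.Agent.W660.FL.mc coeff
  rw [MeasureTheory.L2.inner_def]
  apply integral_congr_ae
  have h : (Pool.Agent.W660.FL.U μ s⁻¹ ξ : G → ℂ) =ᵐ[μ] fun y => (ξ : G → ℂ) (s⁻¹ * y) :=
    Lp.coeFn_compMeasurePreserving (f := fun y => s⁻¹ * y) ξ (measurePreserving_mul_left μ s⁻¹)
  filter_upwards [h] with y hy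
  rw [hy, RCLike.inner_apply]

theorem coeff_cl {f g : G → ℂ} (hf : MemLp f 2 μ) (hg : MemLp g 2 μ) (s : G) :
    coeff μ f g s = ⟪hg.toLp g, lam G μ s (hf.toLp f)⟫_ℂ := by
  rw [coeff_eq]
  unfold coeff
  apply integral_congr_ae
  have e1 := hg.coeFn_toLp
  have e3 : ∀ᵐ y ∂μ, (hf.toLp f : G → ℂ) (s⁻¹ * y) = f (s⁻¹ * y) :=
    (measurePreserving_mul_left μ s⁻¹).quasiMeasurePreserving.ae hf.coeFn_toLp
  filter_upwards [e1, e3] with y h2 h3
  rw [h2, h3]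

theorem isRep_of (ξ η : Pool.Agent.W660.FL.HH μ) {u : G → ℂ}
    (hu : ∀ s, u s = ⟪η, lam G μ s ξ⟫_ℂ) : IsRep μ u (‖ξ‖ * ‖η‖) :=
  ⟨ξ, η, Lp.memLp ξ, Lp.memLp η, fun s => by rw [hu, coeff_eq], by rw [Lp.norm_def, Lp.norm_def]⟩

theorem of_isRep {u : G → ℂ} {r : ℝ} (h : IsRep μ u r) : ∃ ξ η : Pool.Agent.W660.FL.HH μ,
    ‖ξ‖ * ‖η‖ = r ∧ ∀ s, u s = ⟪η, lam G μ s ξ⟫_ℂ := by
  obtain ⟨f, g, hf, hg, hu, hr⟩ := h
  exact ⟨hf.toLp f, hg.toLp g, by rw [Lp.norm_toLp, Lp.norm_toLp, hr],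
    fun s => by rw [hu, coeff_cl μ hf hg]⟩

theorem isRep_nonneg {u : G → ℂ} {r : ℝ} (h : IsRep μ u r) : 0 ≤ r := by
  obtain ⟨f, g, hf, hg, hu, hr⟩ := h
  rw [hr]; positivity

variable {A : Type v} [NonUnitalNormedRing A] [NormedSpace ℂ A]

/-- one coefficient -/
theorem FourierAlg.ex_co (M : FourierAlg μ A) (ξ η : Pool.Agent.W660.FL.HH μ) :
    ∃ a, ∀ s, M.fn a s = ⟪η, lam G μ s ξ⟫_ℂ := by
  obtain ⟨a, ha⟩ := (M.fn_range (fun s => ⟪η, lam G μ s ξ⟫_ℂ)).2 ⟨_, isRep_of μ ξ η fun s => rfl⟩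
  exact ⟨a, fun s => by rw [ha]⟩

theorem FourierAlg.norm_le (M : FourierAlg μ A) (ξ η : Pool.Agent.W660.FL.HH μ) (a : A)
    (ha : ∀ s, M.fn a s = ⟪η, lam G μ s ξ⟫_ℂ) : ‖a‖ ≤ ‖ξ‖ * ‖η‖ := by
  rw [M.norm_eq]
  exact csInf_le ⟨0, fun r hr => isRep_nonneg μ hr⟩ (isRep_of μ ξ η ha)

theorem FourierAlg.rep1 (M : FourierAlg μ A) (a : A) {ε : ℝ} (hε : 0 < ε) :
    ∃ ξ η : Pool.Agent.W660.FL.HH μ, ‖ξ‖ * ‖η‖ ≤ ‖a‖ + ε ∧ ∀ s, M.fn a s = ⟪η, lam G μ s ξ⟫_ℂ := by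
  have hne : {r | IsRep μ (M.fn a) r}.Nonempty := (M.fn_range (M.fn a)).1 ⟨a, rfl⟩
  have hlt : sInf {r | IsRep μ (M.fn a) r} < ‖a‖ + ε := by
    rw [← M.norm_eq]; linarith
  obtain ⟨r, hr, hr2⟩ := exists_lt_of_csInf_lt hne hlt
  obtain ⟨ξ, η, h1, h2⟩ := of_isRep μ hr
  exact ⟨ξ, η, by rw [h1]; exact hr2.le, h2⟩

/-- the axioms which are used in the proof -/
def FourierAlg.toFAW (M : FourierAlg μ A) : FAW (lam G μ) A where
  fn := M.fn
  add a b s := by rw [M.fn_add]; rfl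
  smul c a s := by rw [M.fn_smul]; rfl
  mul a b s := by rw [M.fn_mul]; rfl
  inj a b h := M.fn_inj (funext h)
  co ξ η := (M.ex_co μ ξ η).choose
  fn_co ξ η s := (M.ex_co μ ξ η).choose_spec s
  norm_co ξ η := M.norm_le μ ξ η _ (M.ex_co μ ξ η).choose_spec
  rep a ε hε := by
    obtain ⟨ξ, η, h1, h2⟩ := M.rep1 μ a hε
    refine ⟨fun i => if i = 0 then ξ else 0, fun i => if i = 0 then η else 0, ?_, ?_, ?_, ?_⟩
    · refine summable_of_ne_finset_zero (s := {0}) fun i hi => ?_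
      rw [Finset.mem_singleton] at hi
      simp [hi]
    · refine summable_of_ne_finset_zero (s := {0}) fun i hi => ?_
      rw [Finset.mem_singleton] at hi
      simp [hi]
    · rw [tsum_eq_single 0 (fun i hi => by simp [hi]), tsum_eq_single 0 (fun i hi => by simp [hi])]
      simp only [if_true]
      rw [Real.sqrt_sq (norm_nonneg _), Real.sqrt_sq (norm_nonneg _)]
      exact h1
    · intro s
      rw [tsum_eq_single 0 (fun i hi => by simp [hi])]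
      simp only [if_true]
      exact h2 s
  dens a ε hε := by
    obtain ⟨ξ, η, -, h2⟩ := M.rep1 μ a hε
    refine ⟨1, fun _ => ξ, fun _ => η, ?_⟩
    rw [Finset.sum_range_one]
    have h3 : a = (M.ex_co μ ξ η).choose := M.fn_inj (funext fun s => by
      rw [h2, (M.ex_co μ ξ η).choose_spec s])
    rw [← h3, sub_self, norm_zero]
    exact hε.le

end Conv

end

end Pool.Agent.L7h17.RF
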