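import Pool.Agent.L7h17.RF.Reg
import Pool.Agent.L7h17.RF.Asm

/-!
# Project RF: the positive operator for nondiscrete groups
-/

set_option autoImplicit false
set_option linter.unusedSectionVars false

open MeasureTheory Filter Topology
open scoped ComplexConjugate InnerProductSpace
open Pool.Agent.W660.FL (HH U)

namespace Pool.Agent.L7h17.RF

/-- recursive choice -/
theorem recur {D : Type} [Nonempty D] (P : ℕ → (ℕ → D) → D → Prop)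
    (hloc : ∀ n d d', (∀ m < n, d m = d' m) → ∀ y, P n d y → P n d' y)
    (hex : ∀ n d, ∃ y, P n d y) : ∃ d : ℕ → D, ∀ n, P n d (d n) := by
  classical
  let d0 : D := Classical.arbitrary D
  let f : ∀ n, (∀ m, m < n → D) → D := fun n g =>
    Classical.choose (hex n fun m => if h : m < n then g m h else d0)
  let d : ℕ → D := WellFounded.fix (C := fun _ => D) Nat.lt_wfRel.wf fun n g => f n g
  have hd : ∀ n, d n = f n fun m _ => d m := fun n =>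
    WellFounded.fix_eq (C := fun _ => D) Nat.lt_wfRel.wf (fun n g => f n g) n
  refine ⟨d, fun n => ?_⟩
  rw [hd n]
  refine hloc n (fun m => if h : m < n then d m else d0) d ?_ _
    (Classical.choose_spec (hex n fun m => if h : m < n then d m else d0))
  intro m hm
  simp [hm]

section Op

variable {K : Type} [NormedAddCommGroup K] [InnerProductSpace ℂ K] [CompleteSpace K]
  {L L' : ℕ → Op K} (hadj : ∀ k ξ η, ⟪L k ξ, η⟫_ℂ = ⟪ξ, L' k η⟫_ℂ) (hL : ∀ k ξ, ‖L k ξ‖ ≤ ‖ξ‖)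

/-- the operator `∑ 2^(-k-1) L'_k L_k` -/
noncomputable def hop (L L' : ℕ → Op K) : Op K := ∑' k, ((1 / 2 : ℂ) ^ (k + 1)) • (L' k * L k)

include hadj hL in
theorem L'_le (k : ℕ) (ξ : K) : ‖L' k ξ‖ ≤ ‖ξ‖ := by
  by_cases h0 : ‖L' k ξ‖ = 0
  · rw [h0]; exact norm_nonneg _
  have h1 : ‖L' k ξ‖ * ‖L' k ξ‖ ≤ ‖L' k ξ‖ * ‖ξ‖ := by
    have h2 : ⟪L k (L' k ξ), ξ⟫_ℂ = ⟪L' k ξ, L' k ξ⟫_ℂ := hadj k _ _
    have h3 : ‖⟪L' k ξ, L' k ξ⟫_ℂ‖ = ‖L' k ξ‖ * ‖L' k ξ‖ := by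
      rw [inner_self_eq_norm_sq_to_K, norm_pow]
      simp [sq]
    rw [← h3, ← h2]
    refine (norm_inner_le_norm _ _).trans ?_
    exact mul_le_mul_of_nonneg_right (hL _ _) (norm_nonneg _)
  exact le_of_mul_le_mul_left h1 (lt_of_le_of_ne (norm_nonneg _) (Ne.symm h0))

theorem half_norm (k : ℕ) : ‖((1 / 2 : ℂ) ^ (k + 1))‖ = (1 / 2 : ℝ) ^ (k + 1) := by
  rw [norm_pow]; norm_num

theorem sum_half : HasSum (fun k : ℕ => (1 / 2 : ℝ) ^ (k + 1)) 1 := by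
  have := (hasSum_geometric_two).mul_left (1 / 2 : ℝ)
  simp only [← pow_succ'] at this
  rwa [show (1 / 2 : ℝ) * 2 = 1 by norm_num] at this

include hadj hL in
theorem hop_summable : Summable fun k => ((1 / 2 : ℂ) ^ (k + 1)) • (L' k * L k) := by
  refine Summable.of_norm_bounded (g := fun k : ℕ => (1 / 2 : ℝ) ^ (k + 1)) sum_half.summable
    fun k => ?_
  rw [norm_smul, half_norm]
  have h1 : ‖L' k * L k‖ ≤ 1 := by
    refine ContinuousLinearMap.opNorm_le_bound _ zero_le_one fun x => ?_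
    rw [one_mul]
    exact (L'_le hadj hL k _).trans (hL k x)
  calc (1 / 2 : ℝ) ^ (k + 1) * ‖L' k * L k‖ ≤ (1 / 2 : ℝ) ^ (k + 1) * 1 := by gcongr
    _ = _ := mul_one _

include hadj hL in
theorem hop_inner (x y : K) : HasSum (fun k => ((1 / 2 : ℂ) ^ (k + 1)) * ⟪L k y, L k x⟫_ℂ)
    ⟪y, hop L L' x⟫_ℂ := by
  have h1 : HasSum (fun k => (((1 / 2 : ℂ) ^ (k + 1)) • (L' k * L k)) x) (hop L L' x) :=
    (hop_summable hadj hL).hasSum.mapL (ContinuousLinearMap.apply ℂ K x)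
  have h2 := h1.mapL (innerSL ℂ y)
  have h3 : (fun k => ((1 / 2 : ℂ) ^ (k + 1)) * ⟪L k y, L k x⟫_ℂ) =
      fun k => (innerSL ℂ y) ((((1 / 2 : ℂ) ^ (k + 1)) • (L' k * L k)) x) := by
    funext k
    change _ = ⟪y, ((1 / 2 : ℂ) ^ (k + 1)) • L' k (L k x)⟫_ℂ
    rw [inner_smul_right, hadj]
  rw [h3]
  exact h2

/-- `‖L k x‖² / 2^(k+1)` sums to `⟨h x, x⟩` -/
theorem hop_re (hadj : ∀ k ξ η, ⟪L k ξ, η⟫_ℂ = ⟪ξ, L' k η⟫_ℂ) (hL : ∀ k ξ, ‖L k ξ‖ ≤ ‖ξ‖) (x : K) :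
    HasSum (fun k => (1 / 2 : ℝ) ^ (k + 1) * ‖L k x‖ ^ 2) (⟪hop L L' x, x⟫_ℂ).re := by
  have h1 := (hop_inner hadj hL x x).mapL Complex.reCLM
  have h2 : (fun k => (1 / 2 : ℝ) ^ (k + 1) * ‖L k x‖ ^ 2) =
      fun k => Complex.reCLM (((1 / 2 : ℂ) ^ (k + 1)) * ⟪L k x, L k x⟫_ℂ) := by
    funext k
    rw [inner_self_eq_norm_sq_to_K, Complex.reCLM_apply]
    have : ((1 / 2 : ℂ) ^ (k + 1)) * (((‖L k x‖ : ℝ) : ℂ)) ^ 2 =
        (((1 / 2 : ℝ) ^ (k + 1) * ‖L k x‖ ^ 2 : ℝ) : ℂ) := by push_cast; ring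
    change _ = (((1 / 2 : ℂ) ^ (k + 1)) * (((‖L k x‖ : ℝ) : ℂ)) ^ 2).re
    rw [this, Complex.ofReal_re]
  rw [h2]
  have h3 : (⟪hop L L' x, x⟫_ℂ).re = Complex.reCLM ⟪x, hop L L' x⟫_ℂ := by
    rw [← inner_conj_symm, Complex.reCLM_apply, Complex.conj_re]
  rw [h3]
  exact h1

theorem hop_pos (hadj : ∀ k ξ η, ⟪L k ξ, η⟫_ℂ = ⟪ξ, L' k η⟫_ℂ) (hL : ∀ k ξ, ‖L k ξ‖ ≤ ‖ξ‖) (x : K) :
    0 ≤ (⟪hop L L' x, x⟫_ℂ).re :=
  (hop_re hadj hL x).nonneg fun k => by positivity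

theorem hop_ker (hadj : ∀ k ξ η, ⟪L k ξ, η⟫_ℂ = ⟪ξ, L' k η⟫_ℂ) (hL : ∀ k ξ, ‖L k ξ‖ ≤ ‖ξ‖) (x : K)
    (hx : hop L L' x = 0) (k : ℕ) : L k x = 0 := by
  have h1 := hop_re hadj hL x
  rw [hx, inner_zero_left, Complex.zero_re] at h1
  have h2 := (hasSum_zero_iff_of_nonneg fun k => by positivity).1 h1
  have h3 := congrFun h2 k
  simp only [Pi.zero_apply] at h3
  have h4 : ‖L k x‖ ^ 2 = 0 := by
    rcases mul_eq_zero.1 h3 with h | h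
    · exact absurd h (by positivity)
    · exact h
  exact norm_eq_zero.1 (pow_eq_zero_iff (two_ne_zero) |>.1 h4)

theorem hop_sa (hadj : ∀ k ξ η, ⟪L k ξ, η⟫_ℂ = ⟪ξ, L' k η⟫_ℂ) (hL : ∀ k ξ, ‖L k ξ‖ ≤ ‖ξ‖) :
    IsSelfAdjoint (hop L L') := by
  rw [ContinuousLinearMap.isSelfAdjoint_iff_isSymmetric]
  intro x y
  change ⟪hop L L' x, y⟫_ℂ = ⟪x, hop L L' y⟫_ℂ
  have h1 := hop_inner hadj hL y x
  have h2 := (hop_inner hadj hL x y).mapL (Complex.conjCLE : ℂ →L[ℝ] ℂ)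
  have h3 : (Complex.conjCLE : ℂ →L[ℝ] ℂ) ⟪y, hop L L' x⟫_ℂ = ⟪hop L L' x, y⟫_ℂ := by
    change (starRingEnd ℂ) _ = _
    rw [inner_conj_symm]
  rw [h3] at h2
  refine h2.unique ?_
  have h4 : (fun k => (Complex.conjCLE : ℂ →L[ℝ] ℂ) (((1 / 2 : ℂ) ^ (k + 1)) * ⟪L k y, L k x⟫_ℂ)) =
      fun k => ((1 / 2 : ℂ) ^ (k + 1)) * ⟪L k x, L k y⟫_ℂ := by
    funext k
    change (starRingEnd ℂ) _ = _
    have h5 : (starRingEnd ℂ) (1 / 2) = 1 / 2 := by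
      rw [show (1 / 2 : ℂ) = ((1 / 2 : ℝ) : ℂ) by push_cast; rfl, Complex.conj_ofReal]
    rw [map_mul, inner_conj_symm, map_pow, h5]
  rw [h4]
  exact h1

theorem hop_bic {G : Type} [Group G] {V : G → Op K}
    (hadj : ∀ k ξ η, ⟪L k ξ, η⟫_ℂ = ⟪ξ, L' k η⟫_ℂ) (hL : ∀ k ξ, ‖L k ξ‖ ≤ ‖ξ‖)
    (hb : ∀ k, L k ∈ Bic V) (hb' : ∀ k, L' k ∈ Bic V) : hop L L' ∈ Bic V := by
  intro S hS
  have hs := hop_summable hadj hL
  unfold hop
  rw [← hs.tsum_mul_left, ← hs.tsum_mul_right]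
  congr 1
  funext k
  rw [mul_smul_comm, smul_mul_assoc, (bic_mul (hb' k) (hb k)) S hS]

theorem ico_half (n K : ℕ) : ∑ k ∈ Finset.Ico n K, (1 / 2 : ℝ) ^ (k + 1) ≤ (1 / 2) ^ n := by
  rw [Finset.sum_Ico_eq_sum_range]
  have h1 : ∑ i ∈ Finset.range (K - n), (1 / 2 : ℝ) ^ (n + i + 1) =
      (1 / 2) ^ n * ∑ i ∈ Finset.range (K - n), (1 / 2 : ℝ) ^ (i + 1) := by
    rw [Finset.mul_sum]
    exact Finset.sum_congr rfl fun i _ => by ring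
  rw [h1]
  have h2 : ∑ i ∈ Finset.range (K - n), (1 / 2 : ℝ) ^ (i + 1) ≤ 1 :=
    sum_le_hasSum _ (fun _ _ => by positivity) sum_half
  calc _ ≤ (1 / 2 : ℝ) ^ n * 1 := by gcongr
    _ = _ := mul_one _

theorem hop_small (hadj : ∀ k ξ η, ⟪L k ξ, η⟫_ℂ = ⟪ξ, L' k η⟫_ℂ) (hL : ∀ k ξ, ‖L k ξ‖ ≤ ‖ξ‖)
    (x : K) (hx : ‖x‖ = 1) (n : ℕ) (hn : ∀ k < n, ‖L k x‖ ^ 2 ≤ (1 / 2) ^ n) :
    (⟪hop L L' x, x⟫_ℂ).re ≤ 2 * (1 / 2) ^ n := by
  have h1 := hop_re hadj hL x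
  refine le_of_tendsto h1.tendsto_sum_nat (Filter.Eventually.of_forall fun K => ?_)
  have h2 : ∀ k, (1 / 2 : ℝ) ^ (k + 1) * ‖L k x‖ ^ 2 ≤
      (1 / 2 : ℝ) ^ (k + 1) * (1 / 2) ^ n + if n ≤ k then (1 / 2 : ℝ) ^ (k + 1) else 0 := by
    intro k
    by_cases hk : n ≤ k
    · rw [if_pos hk]
      have h3 : ‖L k x‖ ^ 2 ≤ 1 := by
        have := hL k x
        rw [hx] at this
        exact pow_le_one₀ (norm_nonneg _) this
      have h4 : (1 / 2 : ℝ) ^ (k + 1) * ‖L k x‖ ^ 2 ≤ (1 / 2 : ℝ) ^ (k + 1) * 1 := by gcongr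
      have h5 : (0 : ℝ) ≤ (1 / 2 : ℝ) ^ (k + 1) * (1 / 2) ^ n := by positivity
      linarith
    · rw [if_neg hk, add_zero]
      have := hn k (not_le.1 hk)
      gcongr
  refine (Finset.sum_le_sum fun k _ => h2 k).trans ?_
  rw [Finset.sum_add_distrib, ← Finset.sum_mul, ← Finset.sum_filter]
  have h6 : ∑ i ∈ Finset.range K, (1 / 2 : ℝ) ^ (i + 1) ≤ 1 :=
    sum_le_hasSum _ (fun _ _ => by positivity) sum_half
  have h7 : ∑ k ∈ (Finset.range K).filter (fun k => n ≤ k), (1 / 2 : ℝ) ^ (k + 1) ≤ (1 / 2) ^ n := by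
    refine le_trans (Finset.sum_le_sum_of_subset_of_nonneg ?_ fun _ _ _ => by positivity)
      (ico_half n K)
    intro k hk
    rw [Finset.mem_filter, Finset.mem_range] at hk
    exact Finset.mem_Ico.2 ⟨hk.2, hk.1⟩
  have h8 : (∑ i ∈ Finset.range K, (1 / 2 : ℝ) ^ (i + 1)) * (1 / 2) ^ n ≤ 1 * (1 / 2) ^ n := by
    gcongr
  linarith

/-- vectors almost fixed by `L'` are orthogonal to the kernel -/
theorem hop_orth (hadj : ∀ k ξ η, ⟪L k ξ, η⟫_ℂ = ⟪ξ, L' k η⟫_ℂ) (hL : ∀ k ξ, ‖L k ξ‖ ≤ ‖ξ‖)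
    (x : K) (n : ℕ) (hn : ∀ k, n ≤ k → ‖L' k x - x‖ ≤ (1 / 2) ^ k) (y : K)
    (hy : hop L L' y = 0) : ⟪x, y⟫_ℂ = 0 := by
  have h1 : ∀ k, n ≤ k → ‖⟪x, y⟫_ℂ‖ ≤ (1 / 2) ^ k * ‖y‖ := by
    intro k hk
    have h2 : ⟪L' k x, y⟫_ℂ = 0 := by
      rw [← inner_conj_symm, ← hadj, hop_ker hadj hL y hy k, inner_zero_left, map_zero]
    have h3 : ⟪x, y⟫_ℂ = -⟪L' k x - x, y⟫_ℂ := by
      rw [inner_sub_left, h2]; ring
    rw [h3, norm_neg]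
    refine (norm_inner_le_norm _ _).trans ?_
    exact mul_le_mul_of_nonneg_right (hn k hk) (norm_nonneg _)
  have h4 : Tendsto (fun k : ℕ => (1 / 2 : ℝ) ^ k * ‖y‖) atTop (𝓝 (0 * ‖y‖)) :=
    (tendsto_pow_atTop_nhds_zero_of_lt_one (by norm_num) (by norm_num)).mul_const _
  rw [zero_mul] at h4
  have h5 : ‖⟪x, y⟫_ℂ‖ ≤ 0 := ge_of_tendsto h4 (eventually_atTop.2 ⟨n, h1⟩)
  exact norm_le_zero_iff.1 h5

end Op

variable (G : Type) [Group G] [TopologicalSpace G] [IsTopologicalGroup G] [T2Space G]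
  [LocallyCompactSpace G] [MeasurableSpace G] [BorelSpace G]
  (μ : Measure G) [μ.IsHaarMeasure] [μ.Regular]

/-- a function for finitely many vectors -/
theorem exists_g (hREG : S_REG G μ) (F : Finset (HH μ)) (δ : ℝ) (hδ : 0 < δ) :
    ∃ g : G → ℝ, Continuous g ∧ HasCompactSupport g ∧ (∀ s, 0 ≤ g s) ∧ ∫ s, g s ∂μ = 1 ∧
      ∀ ξ ∈ F, ∀ s, g s ≠ 0 → ‖lam G μ s⁻¹ ξ - ξ‖ ≤ δ := by
  set W : Set G := ⋂ ξ ∈ F, {s | ‖lam G μ s⁻¹ ξ - ξ‖ < δ} with hW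
  have hWo : IsOpen W := by
    refine isOpen_biInter_finset fun ξ _ => ?_
    exact isOpen_lt (((hREG.2.2 ξ).comp continuous_inv).sub continuous_const).norm continuous_const
  have h1 : (1 : G) ∈ W := by
    refine Set.mem_iInter₂.2 fun ξ _ => ?_
    rw [Set.mem_setOf_eq, inv_one, hREG.1.one]
    simpa using hδ
  obtain ⟨f, hf1, hf2, hf3, hf4⟩ := exists_continuous_one_zero_of_isCompact
    (isCompact_singleton (x := (1 : G))) hWo.isClosed_compl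
    (Set.disjoint_singleton_left.2 fun h => h h1)
  have hf5 : f 1 = 1 := hf1 (Set.mem_singleton _)
  have hpos : 0 < ∫ s, f s ∂μ :=
    Continuous.integral_pos_of_hasCompactSupport_nonneg_nonzero f.continuous hf3
      (fun s => (hf4 s).1) (x := 1) (by rw [hf5]; exact one_ne_zero)
  refine ⟨fun s => (∫ s, f s ∂μ)⁻¹ * f s, continuous_const.mul f.continuous, hf3.mul_left,
    fun s => mul_nonneg (inv_nonneg.2 hpos.le) (hf4 s).1, ?_, ?_⟩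
  · rw [integral_const_mul, inv_mul_cancel₀ hpos.ne']
  · intro ξ hξ s hs
    have h2 : f s ≠ 0 := right_ne_zero_of_mul hs
    have h3 : s ∈ W := by
      by_contra h
      exact h2 (hf2 h)
    exact (Set.mem_iInter₂.1 h3 ξ hξ).le

/-- `∫ |⟨λ(s) ξ, ξ⟩| ds` -/
noncomputable def II (ξ : HH μ) : ℝ := ∫ s, ‖⟪ξ, lam G μ s ξ⟫_ℂ‖ ∂μ

/-- data -/
structure Dat where
  ξ : HH μ
  L : Op (HH μ)
  L' : Op (HH μ)
  C : ℝ

instance : Nonempty (Dat G μ) := ⟨⟨0, 0, 0, 0⟩⟩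

/-- the conditions of the recursion -/
structure Stp (O : ℕ → Set G) (x : ℕ → G) (n : ℕ) (d : ℕ → Dat G μ) (y : Dat G μ) : Prop where
  nrm : ‖y.ξ‖ = 1
  int1 : Integrable (fun s => ⟪y.ξ, lam G μ s y.ξ⟫_ℂ) μ
  int2 : Integrable (fun s => ⟪lam G μ (x n) y.ξ, lam G μ s (lam G μ (x n) y.ξ)⟫_ℂ) μ
  sm1 : ∀ m < n, (d m).C * II G μ y.ξ ≤ (1 / 2) ^ n
  sm2 : ∀ m < n, (d m).C * II G μ (lam G μ (x n) y.ξ) ≤ (1 / 2) ^ n
  sup : ∀ s, ⟪lam G μ (x n) y.ξ, lam G μ s y.ξ⟫_ℂ ≠ 0 → s ∈ O n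
  bic : y.L ∈ Bic (lam G μ)
  bic' : y.L' ∈ Bic (lam G μ)
  adj : ∀ ξ η, ⟪y.L ξ, η⟫_ℂ = ⟪ξ, y.L' η⟫_ℂ
  con : ∀ ξ, ‖y.L ξ‖ ≤ ‖ξ‖
  bd : ∀ ξ, Integrable (fun s => ⟪ξ, lam G μ s ξ⟫_ℂ) μ → ‖y.L ξ‖ ^ 2 ≤ y.C * II G μ ξ
  fix1 : ∀ m < n, ‖y.L' (d m).ξ - (d m).ξ‖ ≤ (1 / 2) ^ n
  fix2 : ∀ m < n, ‖y.L' (lam G μ (x m) (d m).ξ) - lam G μ (x m) (d m).ξ‖ ≤ (1 / 2) ^ n
  fix3 : ‖y.L' y.ξ - y.ξ‖ ≤ (1 / 2) ^ n
  fix4 : ‖y.L' (lam G μ (x n) y.ξ) - lam G μ (x n) y.ξ‖ ≤ (1 / 2) ^ n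

theorem stp_exists (hREG : S_REG G μ) (hLAM : S_LAM G μ) (hVEC : S_VEC G μ)
    (hd : ¬ DiscreteTopology G) (O : ℕ → Set G) (x : ℕ → G) (hO : ∀ n, IsOpen (O n))
    (hx : ∀ n, x n ∈ O n) (n : ℕ) (d : ℕ → Dat G μ) : ∃ y, Stp G μ O x n d y := by
  classical
  set B : ℝ := 1 + ∑ m ∈ Finset.range n, |(d m).C| with hB
  have hB0 : 0 < B := by
    have : 0 ≤ ∑ m ∈ Finset.range n, |(d m).C| := Finset.sum_nonneg fun _ _ => abs_nonneg _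
    linarith
  have hBm : ∀ m < n, (d m).C ≤ B := by
    intro m hm
    have h1 : |(d m).C| ≤ ∑ m ∈ Finset.range n, |(d m).C| :=
      Finset.single_le_sum (f := fun m => |(d m).C|) (fun _ _ => abs_nonneg _)
        (Finset.mem_range.2 hm)
    have h2 := le_abs_self (d m).C
    linarith
  obtain ⟨ξ, h1, h2, h3, h4, h5, h6⟩ := hVEC hd (x n) (O n) (hO n) (hx n) ((1 / 2) ^ n / B)
    (by positivity)
  obtain ⟨g, g1, g2, g3, g4, g5⟩ := exists_g G μ hREG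
    (((Finset.range n).image fun m => (d m).ξ) ∪
      ((Finset.range n).image fun m => lam G μ (x m) (d m).ξ) ∪ {ξ, lam G μ (x n) ξ})
    ((1 / 2) ^ n) (by positivity)
  obtain ⟨L, L', l1, l2, l3, l4, l5, C, l6⟩ := hLAM g g1 g2 g3 g4
  have hII : ∀ ζ : HH μ, 0 ≤ II G μ ζ := fun ζ => integral_nonneg fun _ => norm_nonneg _
  have hsm : ∀ (ζ : HH μ), II G μ ζ ≤ (1 / 2) ^ n / B → ∀ m < n, (d m).C * II G μ ζ ≤ (1 / 2) ^ n := by
    intro ζ hζ m hm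
    calc (d m).C * II G μ ζ ≤ B * II G μ ζ := mul_le_mul_of_nonneg_right (hBm m hm) (hII ζ)
      _ ≤ B * ((1 / 2) ^ n / B) := by gcongr
      _ = (1 / 2) ^ n := by field_simp
  refine ⟨⟨ξ, L, L', C⟩, ⟨h1, h2, h4, hsm ξ h3, hsm _ h5, h6, l1, l2, l3, l4, l6, ?_, ?_, ?_, ?_⟩⟩
  · intro m hm
    exact l5 _ _ (g5 _ (by
      refine Finset.mem_union_left _ (Finset.mem_union_left _ ?_)
      exact Finset.mem_image.2 ⟨m, Finset.mem_range.2 hm, rfl⟩))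
  · intro m hm
    exact l5 _ _ (g5 _ (by
      refine Finset.mem_union_left _ (Finset.mem_union_right _ ?_)
      exact Finset.mem_image.2 ⟨m, Finset.mem_range.2 hm, rfl⟩))
  · exact l5 _ _ (g5 _ (Finset.mem_union_right _ (by simp)))
  · exact l5 _ _ (g5 _ (Finset.mem_union_right _ (by simp)))

theorem s_NH (hREG : S_REG G μ) (hLAM : S_LAM G μ) (hVEC : S_VEC G μ) : S_NH G μ := by
  intro hd
  have hinf : Infinite G := by
    by_contra h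
    rw [not_infinite_iff_finite] at h
    exact hd inferInstance
  obtain ⟨O, hO1, hO2, hO3⟩ := exists_seq_infinite_isOpen_pairwise_disjoint G
  choose x hx using fun n => (hO1 n).nonempty
  obtain ⟨d, hdd⟩ := recur (Stp G μ O x) (by
    intro n d d' h y hy
    exact ⟨hy.nrm, hy.int1, hy.int2, fun m hm => by rw [← h m hm]; exact hy.sm1 m hm,
      fun m hm => by rw [← h m hm]; exact hy.sm2 m hm, hy.sup, hy.bic, hy.bic', hy.adj, hy.con,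
      hy.bd, fun m hm => by rw [← h m hm]; exact hy.fix1 m hm,
      fun m hm => by rw [← h m hm]; exact hy.fix2 m hm, hy.fix3, hy.fix4⟩)
    (fun n d => stp_exists G μ hREG hLAM hVEC hd O x hO2 hx n d)
  have hadj : ∀ k ξ η, ⟪(d k).L ξ, η⟫_ℂ = ⟪ξ, (d k).L' η⟫_ℂ := fun k => (hdd k).adj
  have hcon : ∀ k ξ, ‖(d k).L ξ‖ ≤ ‖ξ‖ := fun k => (hdd k).con
  have hw : ∀ n, ‖lam G μ (x n) (d n).ξ‖ = 1 := fun n => by rw [hREG.2.1, (hdd n).nrm]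
  have hlim : Tendsto (fun n : ℕ => 2 * (1 / 2 : ℝ) ^ n) atTop (𝓝 0) := by
    have := (tendsto_pow_atTop_nhds_zero_of_lt_one (r := (1 / 2 : ℝ)) (by norm_num)
      (by norm_num)).const_mul 2
    rwa [mul_zero] at this
  refine ⟨hop (fun k => (d k).L) (fun k => (d k).L'), fun n => (d n).ξ, x,
    hop_bic hadj hcon (fun k => (hdd k).bic) (fun k => (hdd k).bic'), hop_sa hadj hcon,
    hop_pos hadj hcon, fun n => (hdd n).nrm, ?_, ?_, ?_, ?_, ?_⟩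
  · intro n y hy
    refine hop_orth hadj hcon _ n (fun k hk => ?_) y hy
    rcases hk.lt_or_eq with hk | rfl
    · exact (hdd k).fix1 n hk
    · exact (hdd n).fix3
  · intro n y hy
    refine hop_orth hadj hcon _ n (fun k hk => ?_) y hy
    rcases hk.lt_or_eq with hk | rfl
    · exact (hdd k).fix2 n hk
    · exact (hdd n).fix4
  · refine squeeze_zero (fun n => hop_pos hadj hcon _) (fun n => ?_) hlim
    exact hop_small hadj hcon _ (hdd n).nrm n fun k hk =>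
      ((hdd k).bd _ (hdd n).int1).trans ((hdd n).sm1 k hk)
  · refine squeeze_zero (fun n => hop_pos hadj hcon _) (fun n => ?_) hlim
    exact hop_small hadj hcon _ (hw n) n fun k hk =>
      ((hdd k).bd _ (hdd n).int2).trans ((hdd n).sm2 k hk)
  · intro m n hmn s
    by_contra hcon2
    push Not at hcon2
    have h1 := (hdd m).sup s hcon2.1
    have h2 := (hdd n).sup s hcon2.2
    exact (Set.disjoint_left.1 (hO3 hmn)) h1 h2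

end Pool.Agent.L7h17.RF
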