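import Pool.Agent.L7h17.RF.Fou
import Pool.Agent.L7h17.RF.Reg
import Pool.Agent.L7h17.RF.Nh

/-!
# Project RF: assembly
-/

set_option autoImplicit false

open MeasureTheory Filter Topology
open scoped ComplexConjugate InnerProductSpace
open H434R3.Arens (Bidual InRad)

namespace Pool.Agent.L7h17.RF

universe v

variable (G : Type) [Group G] [TopologicalSpace G] [IsTopologicalGroup G] [T2Space G]
  [LocallyCompactSpace G] [MeasurableSpace G] [BorelSpace G]
  (μ : Measure G) [μ.IsHaarMeasure] [μ.Regular]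

theorem main (hFUN : S_FUN.{v}) (hBLK : S_BLK) (hLAM : S_LAM G μ) (hVEC : S_VEC G μ)
    (hDH : S_DH G μ) (hDFS : S_DFS G μ) [Infinite G] (A : Type v) [NonUnitalNormedRing A]
    [NormedSpace ℂ A] [IsScalarTower ℂ A A] [SMulCommClass ℂ A A] (M : FAW (lam G μ) A) :
    ∃ Φ : Bidual A, Φ ≠ 0 ∧ ∀ Ψ : Bidual A, Φ * Ψ * Φ = 0 := by
  by_cases hd : DiscreteTopology G
  · exact dis G μ (s_REG G μ) hFUN hBLK hDH hDFS hd inferInstance M
  · exact non G μ (s_REG G μ) hFUN hBLK (s_NH G μ (s_REG G μ) hLAM hVEC) hd M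

end Pool.Agent.L7h17.RF
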