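import Mathlib
import Pool.Agent.H434R3.Arens
import Pool.Agent.W660.FL.Defs

/-!
# Project RF: the radical of the second dual of the Fourier algebra (MP_129c4a_an)

THEOREM: for every infinite locally compact group `G` there is `Φ ≠ 0` in `A(G)''` with
`Φ □ Ψ □ Φ = 0` for all `Ψ`; so `rad (A(G)'', □) ≠ 0`.

Conventions: `HH μ = L²(G, μ)`, `(U μ x ξ)(y) = ξ (x y)` (`Pool/Agent/W660/FL/Defs.lean`; basic facts in
`Pool/Agent/W660/FG/R_UB.lean`, `R_CC.lean`), so `λ(s) = U μ s⁻¹` and the coefficient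
`⟨λ(s) ξ, η⟩` of the problem is `⟪η, U μ s⁻¹ ξ⟫_ℂ`.

Plan.
* G not discrete. (LAM, VEC, NH): there are a positive operator `h` in `VN(G)`, unit vectors `v n`,
  points `x n`, `w n = λ(x n) (v n)`, all `v n, w n` orthogonal to `ker h`, `⟨h v n, v n⟩ → 0`,
  `⟨h w n, w n⟩ → 0`, and the functions `u n = ⟨λ(·) (v n), w n⟩` have disjoint supports.
  (BLK): spectral blocks `P k = f_k(h)`, `∑ P k ≤ 1`, `P k` almost fixes `v (n k)` and `w (n k)`.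
  (TST): `T m = ∑_{l<m} P l λ(x (n l)) P l` has norm `≤ 1` and `⟨T m v, w⟩ ≈ 1` at `v (n k)`, `w (n k)`.
  (FUN): `T m` defines an element of `A(G)' = VN(G)`; a cluster point `T` of these has
  `T(u (n k)) ≈ 1` for all `k`, so a cluster point `Φ` of the `u (n k)` in `A''` is not zero, and
  (ALG) `Φ □ Ψ □ Φ = 0` because `u m u n = 0` for `m ≠ n`.
* G discrete. (DH): `h = c - ∑ w(y) λ(y)`, `w > 0` on a countable infinite subgroup,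
  `c = sup ⟨a ξ, ξ⟩`; by a Perron-Frobenius argument `ker h = 0`, and there are finitely supported
  unit vectors `v n` with `⟨h v n, v n⟩ → 0`. With BLK and `T m = ∑_{l<m, l even} P l` one gets a
  bounded sequence in `A(G)`, convergent at every point of `G` but not weakly Cauchy, so `Φ ≠ 0` in
  `A''` which vanishes on all evaluations, hence on `A'·A`, and then `Ψ □ Φ = 0`.
-/

set_option autoImplicit false

open MeasureTheory Filter Topology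
open scoped ComplexConjugate InnerProductSpace
open Pool.Agent.W660.FL (HH U)
open H434R3.Arens (Bidual)

namespace Pool.Agent.L7h17.RF

noncomputable section

universe v

/-- bounded operators -/
abbrev Op (K : Type) [NormedAddCommGroup K] [InnerProductSpace ℂ K] : Type := K →L[ℂ] K

section Abs

variable {G K : Type} [Group G] [NormedAddCommGroup K] [InnerProductSpace ℂ K]

/-- a unitary representation (without continuity) -/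
structure URep (V : G → Op K) : Prop where
  one : V 1 = 1
  mul : ∀ s t, V (s * t) = V s * V t
  inv : ∀ s x y, ⟪V s x, y⟫_ℂ = ⟪x, V s⁻¹ y⟫_ℂ

/-- the double commutant of the operators `V s` -/
def Bic (V : G → Op K) : Set (Op K) :=
  {T | ∀ S : Op K, (∀ s, S * V s = V s * S) → S * T = T * S}

/-- `A` is an algebra of functions on `G` (by `fn`) which contains the coefficients of `V`, with the
norm of the predual of the von Neumann algebra generated by `V`. -/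
structure FAW (V : G → Op K) (A : Type*) [NonUnitalNormedRing A] [NormedSpace ℂ A] where
  /-- the function -/
  fn : A → G → ℂ
  add : ∀ a b s, fn (a + b) s = fn a s + fn b s
  smul : ∀ (c : ℂ) a s, fn (c • a) s = c * fn a s
  mul : ∀ a b s, fn (a * b) s = fn a s * fn b s
  inj : ∀ a b, (∀ s, fn a s = fn b s) → a = b
  /-- the coefficient -/
  co : K → K → A
  fn_co : ∀ ξ η s, fn (co ξ η) s = ⟪η, V s ξ⟫_ℂ
  norm_co : ∀ ξ η, ‖co ξ η‖ ≤ ‖ξ‖ * ‖η‖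
  rep : ∀ a, ∀ ε > 0, ∃ ξ η : ℕ → K, Summable (fun i => ‖ξ i‖ ^ 2) ∧
    Summable (fun i => ‖η i‖ ^ 2) ∧
    Real.sqrt (∑' i, ‖ξ i‖ ^ 2) * Real.sqrt (∑' i, ‖η i‖ ^ 2) ≤ ‖a‖ + ε ∧
    ∀ s, fn a s = ∑' i, ⟪η i, V s (ξ i)⟫_ℂ
  dens : ∀ a, ∀ ε > 0, ∃ (m : ℕ) (ξ η : ℕ → K), ‖a - ∑ i ∈ Finset.range m, co (ξ i) (η i)‖ ≤ ε

end Abs

/-- [BIC] (60-100 lines) the proof of the double commutant theorem. Put the sequences in the Hilbert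
space `lp (fun _ : ℕ => K) 2`, let `M` be the closed span of the `(V s (ξ i))_i`, `s` in `G`. It is
invariant under all diagonal operators `(V s)^∞` and their adjoints `(V s⁻¹)^∞`, so the orthogonal
projection `p` onto `M` commutes with them, so all its matrix entries `p i j : K →L K` commute with
all `V s`, hence with `T`, so `p` commutes with `T^∞` and `T^∞ ξ ∈ M ⊥ η`. -/
def S_BIC : Prop := ∀ (G K : Type) [Group G] [NormedAddCommGroup K] [InnerProductSpace ℂ K]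
  [CompleteSpace K] (V : G → Op K), URep V → ∀ T ∈ Bic V, ∀ ξ η : ℕ → K,
  Summable (fun i => ‖ξ i‖ ^ 2) → Summable (fun i => ‖η i‖ ^ 2) →
  (∀ s, ∑' i, ⟪η i, V s (ξ i)⟫_ℂ = 0) → ∑' i, ⟪η i, T (ξ i)⟫_ℂ = 0

/-- [FUN] (60-100 lines; theorem `s_FUN : S_BIC → S_FUN`). `τ a = ∑ ⟨T ξ i, η i⟩` for any
representation of `a` as in `rep`; well defined, additive and homogeneous by BIC (put three
representations together into one sequence of pairs), bounded by Cauchy-Schwarz. -/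
def S_FUN : Prop := ∀ (G K : Type) [Group G] [NormedAddCommGroup K] [InnerProductSpace ℂ K]
  [CompleteSpace K] (V : G → Op K), URep V → ∀ (A : Type v) [NonUnitalNormedRing A]
  [NormedSpace ℂ A] (M : FAW V A), ∀ T ∈ Bic V,
  ∃ τ : A →L[ℂ] ℂ, ‖τ‖ ≤ ‖T‖ ∧ ∀ ξ η, τ (M.co ξ η) = ⟪η, T ξ⟫_ℂ

/-- [BLK] (120-200 lines) spectral blocks. With `f_j(x) = min 1 (j x)` and the continuous functional
calculus `E j = cfc f_j h` (real, `h` self-adjoint, spectrum in `[0, ∞)`): `0 ≤ E j ≤ 1`, `E j` is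
monotone in `j`, commutes with everything that commutes with `h`; `E j ≤ j h`, so
`⟨E j v n, v n⟩ → 0` for `n → ∞`; `‖(1 - E j) h‖ ≤ 1 / j`, so `(1 - E j) y → 0` for `y` in the closure
of the range of `h`, which is the orthogonal complement of the kernel of `h`. Choose recursively
`a 0 = 1`, `n k` with `⟨E (a k) y, y⟩ ≤ ε / 2` for `y = v (n k), w (n k)`, then `b k > a k` with
`⟨(1 - E (b k)) y, y⟩ ≤ ε / 2`, `a (k + 1) = b k`, `n (k + 1) > n k`; `P k = E (b k) - E (a k)`. -/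
def S_BLK : Prop := ∀ (K : Type) [NormedAddCommGroup K] [InnerProductSpace ℂ K] [CompleteSpace K]
  (h : Op K), IsSelfAdjoint h → (∀ y, 0 ≤ (⟪h y, y⟫_ℂ).re) → ∀ v w : ℕ → K,
  (∀ n, ‖v n‖ = 1) → (∀ n, ‖w n‖ = 1) →
  (∀ n y, h y = 0 → ⟪v n, y⟫_ℂ = 0) → (∀ n y, h y = 0 → ⟪w n, y⟫_ℂ = 0) →
  Tendsto (fun n => (⟪h (v n), v n⟫_ℂ).re) atTop (𝓝 0) →
  Tendsto (fun n => (⟪h (w n), w n⟫_ℂ).re) atTop (𝓝 0) → ∀ ε > 0,
  ∃ (n : ℕ → ℕ) (P : ℕ → Op K), StrictMono n ∧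
    (∀ k, ∀ S : Op K, S * h = h * S → S * P k = P k * S) ∧
    (∀ k, IsSelfAdjoint (P k)) ∧
    (∀ k y, 0 ≤ (⟪P k y, y⟫_ℂ).re ∧ ‖P k y‖ ^ 2 ≤ (⟪P k y, y⟫_ℂ).re) ∧
    (∀ m y, ∑ k ∈ Finset.range m, (⟪P k y, y⟫_ℂ).re ≤ ‖y‖ ^ 2) ∧
    (∀ k, 1 - ε ≤ (⟪P k (v (n k)), v (n k)⟫_ℂ).re) ∧
    (∀ k, 1 - ε ≤ (⟪P k (w (n k)), w (n k)⟫_ℂ).re)

section Grp

variable (G : Type) [Group G] [TopologicalSpace G] [IsTopologicalGroup G] [T2Space G]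
  [LocallyCompactSpace G] [MeasurableSpace G] [BorelSpace G]
  (μ : Measure G) [μ.IsHaarMeasure] [μ.Regular]

/-- the left regular representation -/
def lam (s : G) : Op (HH μ) := (U μ s⁻¹).toContinuousLinearMap

/-- [REG] (20 lines, from `W660/FG/R_UB.lean`) -/
def S_REG : Prop := URep (lam G μ) ∧ (∀ s ξ, ‖lam G μ s ξ‖ = ‖ξ‖) ∧
  ∀ ξ, Continuous fun s => lam G μ s ξ

/-- [LAM] (100-150 lines) `L = ∫ g(s) λ(s) ds` (strong Bochner integral), `L' = ∫ g(s) λ(s)⁻¹ ds` its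
adjoint. Last bound: `‖L ξ‖² = ⟨L ξ, ∫ g(t) λ(t) ξ⟩ ≤ ∫ g(t) |⟨L ξ, λ(t) ξ⟩| dt` and
`|⟨L ξ, λ(t) ξ⟩| = |∫ g(s) ⟨λ(t⁻¹ s) ξ, ξ⟩ ds| ≤ max g ∫ |⟨λ(s) ξ, ξ⟩| ds` (left invariance). -/
def S_LAM : Prop := ∀ g : G → ℝ, Continuous g → HasCompactSupport g → (∀ s, 0 ≤ g s) →
  ∫ s, g s ∂μ = 1 → ∃ L L' : Op (HH μ), L ∈ Bic (lam G μ) ∧ L' ∈ Bic (lam G μ) ∧
    (∀ ξ η, ⟪L ξ, η⟫_ℂ = ⟪ξ, L' η⟫_ℂ) ∧ (∀ ξ, ‖L ξ‖ ≤ ‖ξ‖) ∧
    (∀ ξ (δ : ℝ), (∀ s, g s ≠ 0 → ‖lam G μ s⁻¹ ξ - ξ‖ ≤ δ) → ‖L' ξ - ξ‖ ≤ δ) ∧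
    ∃ C : ℝ, ∀ ξ, Integrable (fun s => ⟪ξ, lam G μ s ξ⟫_ℂ) μ →
      ‖L ξ‖ ^ 2 ≤ C * ∫ s, ‖⟪ξ, lam G μ s ξ⟫_ℂ‖ ∂μ

/-- [VEC] (80-120 lines) `ξ = 1_V / √μ(V)`, `V` a small open relatively compact neighbourhood of `1`.
`⟨λ(s) ξ, ξ⟩ = μ(s V ∩ V) / μ(V)` vanishes unless `s ∈ V V⁻¹`; for `w = λ(x) ξ`:
`⟨λ(s) w, w⟩` vanishes unless `s ∈ x V V⁻¹ x⁻¹`, `⟨λ(s) ξ, w⟩` unless `s ∈ x V V⁻¹`. As `{1}` is a
null set (`G` is not discrete) `1` has open neighbourhoods of small measure. -/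
def S_VEC : Prop := ¬ DiscreteTopology G → ∀ (x : G) (O : Set G), IsOpen O → x ∈ O →
  ∀ ε > 0, ∃ ξ : HH μ, ‖ξ‖ = 1 ∧
    Integrable (fun s => ⟪ξ, lam G μ s ξ⟫_ℂ) μ ∧ ∫ s, ‖⟪ξ, lam G μ s ξ⟫_ℂ‖ ∂μ ≤ ε ∧
    Integrable (fun s => ⟪lam G μ x ξ, lam G μ s (lam G μ x ξ)⟫_ℂ) μ ∧
    ∫ s, ‖⟪lam G μ x ξ, lam G μ s (lam G μ x ξ)⟫_ℂ‖ ∂μ ≤ ε ∧
    ∀ s, ⟪lam G μ x ξ, lam G μ s ξ⟫_ℂ ≠ 0 → s ∈ O

/-- [NH] (from REG, LAM, VEC; helper17) the positive operator for nondiscrete groups -/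
def S_NH : Prop := ¬ DiscreteTopology G →
  ∃ (h : Op (HH μ)) (v : ℕ → HH μ) (x : ℕ → G), h ∈ Bic (lam G μ) ∧ IsSelfAdjoint h ∧
    (∀ y, 0 ≤ (⟪h y, y⟫_ℂ).re) ∧ (∀ n, ‖v n‖ = 1) ∧
    (∀ n y, h y = 0 → ⟪v n, y⟫_ℂ = 0) ∧ (∀ n y, h y = 0 → ⟪lam G μ (x n) (v n), y⟫_ℂ = 0) ∧
    Tendsto (fun n => (⟪h (v n), v n⟫_ℂ).re) atTop (𝓝 0) ∧
    Tendsto (fun n => (⟪h (lam G μ (x n) (v n)), lam G μ (x n) (v n)⟫_ℂ).re) atTop (𝓝 0) ∧
    ∀ m n, m ≠ n → ∀ s, ⟪lam G μ (x m) (v m), lam G μ s (v m)⟫_ℂ = 0 ∨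
      ⟪lam G μ (x n) (v n), lam G μ s (v n)⟫_ℂ = 0

/-- [DH] (200-300 lines) `G` discrete and infinite (`μ` is a multiple of the counting measure, null
sets are empty). Let `H` be a countable infinite subgroup, `w : G → ℝ` summable, `w y = w y⁻¹`,
`w > 0` on `H`, `w = 0` off `H`, `a = ∑ w(y) λ(y)` (norm convergent, self-adjoint, in `Bic`), `c` the
supremum of `⟨a ξ, ξ⟩` over the unit vectors, `h = c - a`; `c ≥ w(1) > 0`. Then `h ≥ 0` and there are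
finitely supported unit vectors `v n` with `⟨h v n, v n⟩ → 0` (density).
`ker h = 0`: let `h ξ = 0`. (1) `|⟨a ξ, ξ⟩| ≤ ⟨a |ξ|, |ξ|⟩`, so `⟨h |ξ|, |ξ|⟩ = 0` and `h |ξ| = 0`
(`h ≥ 0`): the kernel is closed under `ξ ↦ |ξ|`; it is closed under the right translations
`(ρ z ξ)(y) = ξ (y z)`. (2) if `ζ ≥ 0`, `a ζ = c ζ` and `ζ(1) = 0` then `ζ = 0` on `H`, since
`c ζ(1) = ∑ w(y) ζ(y⁻¹)`. (3) if `h ξ = 0`, `ξ ≠ 0`, translate so that `η = |ξ|` has `η(1) > 0`. For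
`z ∈ H` put `t = η(z) / η(1)`; by (1), (2) for `ζ = |ρ z η - t η|` we get `η(y z) = t η(y)` for all
`y ∈ H`; comparing `∑_{y ∈ H} η(y)²` we get `t = 1`. So `η` is constant and positive on `H`,
a contradiction to `η ∈ L²`. -/
def S_DH : Prop := DiscreteTopology G → Infinite G →
  ∃ (h : Op (HH μ)) (v : ℕ → HH μ), h ∈ Bic (lam G μ) ∧ IsSelfAdjoint h ∧
    (∀ y, 0 ≤ (⟪h y, y⟫_ℂ).re) ∧ (∀ n, ‖v n‖ = 1) ∧ (∀ y, h y = 0 → y = 0) ∧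
    Tendsto (fun n => (⟪h (v n), v n⟫_ℂ).re) atTop (𝓝 0) ∧
    ∀ n, {s : G | ⟪v n, lam G μ s (v n)⟫_ℂ ≠ 0}.Finite

/-- [DFS] (60-80 lines; discrete groups) coefficients with finite support are dense: every coefficient
is approximated by one of finitely supported vectors, and the point masses are coefficients. -/
def S_DFS : Prop := DiscreteTopology G →
  (∀ (ξ : HH μ), ∀ ε > 0, ∃ ξ' : HH μ, ‖ξ - ξ'‖ ≤ ε ∧ {y : G | (ξ' : G → ℂ) y ≠ 0}.Finite) ∧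
  (∀ ξ η : HH μ, {y : G | (ξ : G → ℂ) y ≠ 0}.Finite → {y : G | (η : G → ℂ) y ≠ 0}.Finite →
    {s : G | ⟪η, lam G μ s ξ⟫_ℂ ≠ 0}.Finite) ∧
  ∀ x : G, ∃ ξ η : HH μ, ⟪η, lam G μ x ξ⟫_ℂ = 1 ∧ ∀ s, s ≠ x → ⟪η, lam G μ s ξ⟫_ℂ = 0

end Grp

end

end Pool.Agent.L7h17.RF
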